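import Pool.Agent.X169.NM.Clos

/-! Convex combinations of mollifications: the abstract closing argument. -/

set_option autoImplicit false

open Set Filter Topology Metric Function
open scoped Manifold ContDiff

noncomputable section

namespace Pool.Agent.X169.NI

open Pool.Agent.Y522 Pool.Agent.X169.NM

theorem closA {n m : ℕ} (hn : 0 < n) {X N : Type} [TopologicalSpace X] [T2Space X] [CompactSpace X]
    [ChartedSpace (E n) X] [IsManifold (𝓡 n) ∞ X] [TopologicalSpace N]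
    [ChartedSpace (E n) N] [IsManifold (𝓡 n) ∞ N]
    (g : X ≃ₜ N) (e : N → E m) (he : ContMDiff (𝓡 n) (𝓡 m) ∞ e) (hemb : IsEmbedding e)
    (hei : ∀ y, Injective (mfderiv (𝓡 n) (𝓡 m) e y))
    (U : Set (E m)) (P : E m → E m) (hU : IsOpen U)
    (hP : ContDiffOn ℝ ∞ P U) (hPS : ∀ y ∈ U, P y ∈ range e) (hPi : ∀ y ∈ range e, P y = y)
    (Λ : ℝ) (hΛ : 1 ≤ Λ) (hPn : ∀ y ∈ range e, ‖fderiv ℝ P y‖ ≤ Λ)
    (θ : ℝ) (hθ : 0 < θ) (hΛθ : 80 * Λ * θ = 1)
    (ρ₁ η₁ ρ₂ : ℝ) (hρ₂ : 0 < ρ₂) (hρ₂1 : 4 * (Λ + 1) * ρ₂ ≤ ρ₁) (hρ₂2 : 4 * (Λ + 1) * ρ₂ ≤ η₁)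
    (hW' : ∀ w : E m, ‖w‖ < ρ₁ → (∀ y ∈ range e,
      ‖P (y + w) - P y - fderiv ℝ P y w‖ ≤ θ * ‖w‖) ∧ (∀ y ∈ range e, y + w ∈ U) ∧
      ∀ y ∈ range e, ‖fderiv ℝ P (y + w) - fderiv ℝ P y‖ ≤ θ)
    {ι : Type} [Fintype ι] (B : ι → E n → X)
    (hinj : ∀ j, InjOn (B j) (closedBall 0 2))
    (hLD : ∀ j, ∀ z ∈ closedBall (0 : E n) 2, LD n (B j) z)
    (hcov : ∀ x, ∃ j, x ∈ B j '' closedBall 0 (1 / 2))
    (hη : ∀ x x' : X, ‖e (g x) - e (g x')‖ < η₁ →
      ∃ i, ∃ p ∈ closedBall (0 : E n) (3 / 4), ∃ p' ∈ closedBall (0 : E n) (3 / 4),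
        x = B i p ∧ x' = B i p')
    (δ : ℝ) (hδ : 0 < δ) (hδ4 : δ ≤ 1 / 4)
    (hosc : ∀ i, ∀ z ∈ closedBall (0 : E n) 1, ∀ v : E n, ‖v‖ ≤ δ →
      ‖e (g (B i (z + v))) - e (g (B i z))‖ ≤ ρ₂)
    (F' : X → E m) (hsm : ∀ i, ∀ w ∈ ball (0 : E n) 2, ContDiffAt ℝ ∞ (fun y => F' (B i y)) w)
    (T₀ : ι → E n → E n →L[ℝ] E m) (l₀ : ι → E n → ℝ)
    (hpt₀ : ∀ i, ∀ z ∈ closedBall (0 : E n) 1, 0 < l₀ i z ∧ (∀ v, l₀ i z * ‖v‖ ≤ ‖T₀ i z v‖) ∧
        (∀ q, ‖q - z‖ ≤ δ →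
          ‖e (g (B i q)) - e (g (B i z)) - T₀ i z (q - z)‖ ≤ θ * l₀ i z * δ) ∧
        (∀ v, ‖v‖ = 1 → ‖F' (B i z) - e (g (B i z))‖ ≤ θ * ‖T₀ i z v‖ * δ) ∧
        (∀ v, ‖v‖ = 1 → ‖fderiv ℝ (fun y => F' (B i y)) z v - T₀ i z v‖ ≤
          2 * θ * ‖T₀ i z v‖)) :
    (∀ x, F' x ∈ U) ∧ ∀ G : X → N, (∀ x, e (G x) = P (F' x)) → Bijective G ∧ ∀ x, LD n G x := by
  classical
  have hΛ0 : 0 < Λ := by linarith
  have hθ80 : θ ≤ 1 / 80 := by nlinarith
  set F : X → E m := fun x => e (g x) with hFd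
  have hFe : IsEmbedding F := hemb.comp g.isEmbedding
  have hFr : range F = range e := by
    have : F = e ∘ g := rfl
    rw [this, range_comp, g.surjective.range_eq, image_univ]
  have hSc : IsCompact (range e) := by
    rw [← hFr]
    exact isCompact_range hFe.continuous
  have hF0 : ∀ x, F x ∈ range e := fun x => ⟨g x, rfl⟩
  have hBc : ∀ j, ContinuousOn (B j) (closedBall 0 2) :=
    fun j z hz => (hLD j z hz).continuousAt.continuousWithinAt
  have hPc : ∀ y ∈ U, ContDiffAt ℝ ∞ P y := fun y hy => (hP y hy).contDiffAt (hU.mem_nhds hy)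
  have s12' : closedBall (0 : E n) 1 ⊆ closedBall 0 2 := closedBall_subset_closedBall (by norm_num)
  have hPF : ∀ y ∈ range e, ∀ f : E m, ‖f - y‖ < ρ₁ → ‖P f - y‖ ≤ (Λ + 1) * ‖f - y‖ := by
    intro y hy f hf
    have h1 := (hW' _ hf).1 y hy
    rw [add_sub_cancel, hPi y hy] at h1
    have h2 : ‖fderiv ℝ P y (f - y)‖ ≤ Λ * ‖f - y‖ :=
      ((fderiv ℝ P y).le_opNorm _).trans (mul_le_mul_of_nonneg_right (hPn y hy) (norm_nonneg _))
    have h3 : ‖P f - y‖ ≤ ‖P f - y - fderiv ℝ P y (f - y)‖ + ‖fderiv ℝ P y (f - y)‖ := by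
      have := norm_add_le (P f - y - fderiv ℝ P y (f - y)) (fderiv ℝ P y (f - y))
      rwa [sub_add_cancel] at this
    have h4 : θ * ‖f - y‖ ≤ 1 * ‖f - y‖ := by
      apply mul_le_mul_of_nonneg_right _ (norm_nonneg _)
      linarith
    linarith
  have hρ8 : 8 * ρ₂ ≤ ρ₁ := by nlinarith
  have hpt : ∀ i, ∀ z ∈ closedBall (0 : E n) 1, ∃ (T : E n →L[ℝ] E m) (l : ℝ), 0 < l ∧
      (∀ v, l * ‖v‖ ≤ ‖T v‖) ∧
      (∀ q, ‖q - z‖ ≤ δ → ‖F (B i q) - F (B i z) - T (q - z)‖ ≤ θ * l * δ) ∧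
      (∀ v, ‖v‖ = 1 → ‖F' (B i z) - F (B i z)‖ ≤ θ * ‖T v‖ * δ) ∧
      (∀ v, ‖v‖ = 1 → ‖fderiv ℝ (fun y => F' (B i y)) z v - T v‖ ≤ 2 * θ * ‖T v‖) :=
    fun i z hz => ⟨T₀ i z, l₀ i z, hpt₀ i z hz⟩
  have hpt' : ∀ i, ∀ z ∈ closedBall (0 : E n) 1, ∃ (T : E n →L[ℝ] E m) (σ : ℝ), 0 < σ ∧
      (∀ v, σ * ‖v‖ ≤ ‖T v‖) ∧
      (∀ q, ‖q - z‖ ≤ δ → ‖F (B i q) - F (B i z) - T (q - z)‖ ≤ θ * σ * δ) ∧
      ‖F' (B i z) - F (B i z)‖ ≤ θ * σ * δ ∧
      (∀ v, ‖v‖ = 1 → ‖fderiv ℝ (fun y => F' (B i y)) z v - T v‖ ≤ 2 * θ * ‖T v‖) ∧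
      σ * δ ≤ 2 * ρ₂ := by
    intro i z hz
    obtain ⟨T, l, hl, hT, hT1, hT2, hT3⟩ := hpt i z hz
    obtain ⟨v₀, hv₀, hv₀'⟩ := min_vec hn T
    have hl2 : l ≤ ‖T v₀‖ := by
      have := hT v₀
      rwa [hv₀, mul_one] at this
    have hσ0 : 0 < ‖T v₀‖ := lt_of_lt_of_le hl hl2
    refine ⟨T, ‖T v₀‖, hσ0, hv₀', ?_, hT2 v₀ hv₀, hT3, ?_⟩
    · intro q hq
      refine (hT1 q hq).trans ?_
      gcongr
    · have h1 := hT1 (z + δ • v₀) (by
        rw [add_sub_cancel_left, norm_smul, hv₀, mul_one, Real.norm_of_nonneg hδ.le])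
      have h2 := hosc i z hz (δ • v₀) (by
        rw [norm_smul, hv₀, mul_one, Real.norm_of_nonneg hδ.le])
      rw [add_sub_cancel_left] at h1
      have h3 : ‖T (δ • v₀)‖ = ‖T v₀‖ * δ := by
        rw [map_smul, norm_smul, Real.norm_of_nonneg hδ.le, mul_comm]
      have h4 : ‖T (δ • v₀)‖ ≤ ‖F (B i (z + δ • v₀)) - F (B i z)‖ +
          ‖F (B i (z + δ • v₀)) - F (B i z) - T (δ • v₀)‖ := by
        have := norm_sub_le (F (B i (z + δ • v₀)) - F (B i z))
          (F (B i (z + δ • v₀)) - F (B i z) - T (δ • v₀))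
        rwa [sub_sub_cancel] at this
      have h5 : θ * l * δ ≤ 1 / 2 * (‖T v₀‖ * δ) := by
        calc θ * l * δ ≤ 1 / 2 * ‖T v₀‖ * δ := by
              gcongr
              linarith
          _ = _ := by ring
      linarith
  choose! T σ hσ0 hσ hT hF'F hDT hσδ using hpt'
  have hF'ρ : ∀ x, ‖F' x - F x‖ ≤ ρ₂ := by
    intro x
    obtain ⟨i, z, hz, rfl⟩ := hcov x
    have hz1 : z ∈ closedBall (0 : E n) 1 := closedBall_subset_closedBall (by norm_num) hz
    refine (hF'F i z hz1).trans ?_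
    have h1 : θ * (σ i z * δ) ≤ 1 / 80 * (2 * ρ₂) :=
      mul_le_mul hθ80 (hσδ i z hz1) (mul_nonneg (hσ0 i z hz1).le hδ.le) (by norm_num)
    rw [mul_assoc]
    linarith
  have hF'ρ1 : ∀ x, ‖F' x - F x‖ < ρ₁ := fun x => lt_of_le_of_lt (hF'ρ x) (by linarith)
  have hF'U : ∀ x, F' x ∈ U := by
    intro x
    have := (hW' _ (hF'ρ1 x)).2.1 (F x) (hF0 x)
    rwa [add_sub_cancel] at this
  -- the smooth map
  set H : X → E m := fun x => P (F' x) with hH
  have hHS : ∀ x, ∃ y, e y = H x := fun x => hPS _ (hF'U x)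
  have hHF : ∀ x, ‖H x - F x‖ ≤ (Λ + 1) * ρ₂ := fun x =>
    (hPF (F x) (hF0 x) (F' x) (hF'ρ1 x)).trans
      (mul_le_mul_of_nonneg_left (hF'ρ x) (by linarith))
  refine ⟨hF'U, ?_⟩
  intro G hG
  have hHsm : ∀ i, ∀ w ∈ ball (0 : E n) 2, ContDiffAt ℝ ∞ (fun q => H (B i q)) w := fun i w hw =>
    (hPc _ (hF'U (B i w))).comp w (hsm i w hw)
  have s12 : closedBall (0 : E n) 1 ⊆ ball 0 2 := closedBall_subset_ball (by norm_num)
  have hHd : ∀ i, ∀ z ∈ closedBall (0 : E n) 1, HasFDerivAt (fun q => H (B i q))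
      ((fderiv ℝ P (F' (B i z))).comp (fderiv ℝ (fun y => F' (B i y)) z)) z := by
    intro i z hz
    have h1 : HasFDerivAt P (fderiv ℝ P (F' (B i z))) (F' (B i z)) :=
      ((hPc _ (hF'U (B i z))).differentiableAt (by simp)).hasFDerivAt
    have h2 : HasFDerivAt (fun y => F' (B i y)) (fderiv ℝ (fun y => F' (B i y)) z) z :=
      ((hsm i z (s12 hz)).differentiableAt (by simp)).hasFDerivAt
    exact HasFDerivAt.comp (g := P) (f := fun y => F' (B i y)) z h1 h2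
  set D : ι → E n → E n →L[ℝ] E m := fun i z =>
    (fderiv ℝ P (F' (B i z))).comp (fderiv ℝ (fun y => F' (B i y)) z) with hDd
  have hD8 : ∀ i, ∀ z ∈ closedBall (0 : E n) 1, ∀ v, ‖v‖ = 1 →
      ‖D i z v - T i z v‖ ≤ 1 / 8 * ‖T i z v‖ := by
    intro i z hz
    refine push Λ θ δ hΛ hθ (by linarith) hδ (T i z) (fderiv ℝ (fun y => F' (B i y)) z)
      (fderiv ℝ P (F (B i z))) (fderiv ℝ P (F' (B i z))) (σ i z) (hσ i z hz)
      (fun v => F (B i (z + δ • v)) - F (B i z)) ?_ ?_ (hPn _ (hF0 _)) ?_ (hDT i z hz)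
    · intro v hv
      have h1 := hT i z hz (z + δ • v) (by
        rw [add_sub_cancel_left, norm_smul, hv, mul_one, Real.norm_of_nonneg hδ.le])
      rwa [add_sub_cancel_left] at h1
    · intro v hv
      have h2 := hosc i z hz (δ • v) (by
        rw [norm_smul, hv, mul_one, Real.norm_of_nonneg hδ.le])
      have h3 := (hW' (F (B i (z + δ • v)) - F (B i z)) (by linarith)).1 (F (B i z)) (hF0 _)
      rwa [add_sub_cancel, hPi _ (hF0 _), hPi _ (hF0 _)] at h3
    · have h4 := (hW' _ (hF'ρ1 (B i z))).2.2 (F (B i z)) (hF0 _)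
      rwa [add_sub_cancel] at h4
  have hHc : Continuous H := by
    rw [continuous_iff_continuousAt]
    intro x
    obtain ⟨i, z, hz, rfl⟩ := hcov x
    have hz1 : z ∈ closedBall (0 : E n) 1 := closedBall_subset_closedBall (by norm_num) hz
    obtain ⟨b, hb, hb0, -, hbr⟩ := (hLD i z (s12' hz1)).exists_inverse
    have h1 : ContinuousAt (fun y => H (B i (b y))) (B i z) := by
      refine ContinuousAt.comp (f := b) (g := fun q => H (B i q)) ?_ hb.continuousAt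
      rw [hb0]
      exact (hHsm i z (s12 hz1)).continuousAt
    refine h1.congr ?_
    filter_upwards [hbr] with y hy
    rw [hy]
  have hGc : Continuous G := by
    rw [hemb.isInducing.continuous_iff]
    exact hHc.congr fun x => (hG x).symm
  have hGLD : ∀ x, LD n G x := by
    intro x
    obtain ⟨i, z, hz, rfl⟩ := hcov x
    have hz1 : z ∈ closedBall (0 : E n) 1 := closedBall_subset_closedBall (by norm_num) hz
    have hfe : (fun q => e (G (B i q))) = fun q => H (B i q) := by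
      funext q
      exact hG _
    refine lift_LD e he hei G (B i) z hGc.continuousAt (hLD i z (s12' hz1)) ?_ ?_
    · rw [hfe]
      filter_upwards [isOpen_ball.mem_nhds (s12 hz1)] with w hw
      exact hHsm i w hw
    · rw [hfe, (hHd i z hz1).fderiv]
      rw [injective_iff_map_eq_zero]
      intro v hv
      by_contra hv0
      have hvn : 0 < ‖v‖ := norm_pos_iff.2 hv0
      have h1 : ‖(‖v‖⁻¹ • v)‖ = 1 := by
        rw [norm_smul, norm_inv, norm_norm, inv_mul_cancel₀ hvn.ne']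
      have h2 := hD8 i z hz1 _ h1
      have h3 := hσ i z hz1 (‖v‖⁻¹ • v)
      have h4 : D i z (‖v‖⁻¹ • v) = 0 := by
        rw [map_smul, hv, smul_zero]
      rw [h4, zero_sub, norm_neg] at h2
      rw [h1, mul_one] at h3
      have := hσ0 i z hz1
      linarith
  have hT2N : T2Space N := g.symm.isEmbedding.t2Space
  refine ⟨⟨?_, ?_⟩, hGLD⟩
  · -- injectivity
    intro x x' hxx
    have hHH : H x = H x' := by
      have e1 := hG x
      have e2 := hG x'
      change P (F' x) = P (F' x')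
      rw [← e1, ← e2, hxx]
    have hnear : ‖F x - F x'‖ < η₁ := by
      have h1 := hHF x
      have h2 := hHF x'
      have h3 : F x - F x' = -(H x - F x) + (H x' - F x') := by
        rw [hHH]
        abel
      have h4 : ‖F x - F x'‖ ≤ ‖H x - F x‖ + ‖H x' - F x'‖ := by
        rw [h3]
        refine (norm_add_le _ _).trans ?_
        rw [norm_neg]
      nlinarith
    have hnear1 : ‖F x - F x'‖ < ρ₁ := by
      have h1 := hHF x
      have h2 := hHF x'
      have h3 : F x - F x' = -(H x - F x) + (H x' - F x') := by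
        rw [hHH]
        abel
      have h4 : ‖F x - F x'‖ ≤ ‖H x - F x‖ + ‖H x' - F x'‖ := by
        rw [h3]
        refine (norm_add_le _ _).trans ?_
        rw [norm_neg]
      nlinarith
    obtain ⟨i, p, hp, p', hp', rfl, rfl⟩ := hη x x' hnear
    have hp1 : p ∈ closedBall (0 : E n) 1 := closedBall_subset_closedBall (by norm_num) hp
    have hp1' : p' ∈ closedBall (0 : E n) 1 := closedBall_subset_closedBall (by norm_num) hp'
    have far : ∀ a ∈ closedBall (0 : E n) 1, ∀ b ∈ closedBall (0 : E n) 1, σ i b ≤ σ i a →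
        H (B i b) = H (B i a) → ‖F (B i b) - F (B i a)‖ < ρ₁ → ‖b - a‖ ≤ δ / 2 := by
      intro a ha b hb hab hHab hFab
      have hsub : closedBall a (δ / 2) ⊆ closedBall 0 2 := by
        intro w hw
        rw [mem_closedBall_zero_iff] at ha ⊢
        rw [mem_closedBall, dist_eq_norm] at hw
        have := norm_le_norm_add_norm_sub' w a
        linarith
      refine far_inj Λ θ δ hΛ hθ hΛθ.le hδ F hFe P ρ₁ ?_ ?_ ?_ ?_ ?_ (B i) a b (hinj i) hsub
        (s12' hb) ?_ ?_ (T i a) (σ i a) (σ i b) (hσ0 i a ha) hab (hσ i a ha) (hT i a ha)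
        (F' (B i a)) (F' (B i b)) (hF'F i a ha) (hF'F i b hb) (hF'ρ1 _) (hF'ρ1 _) hFab hHab
      · intro y hy w hw
        rw [hFr] at hy
        exact (hPc _ ((hW' w hw).2.1 y hy)).continuousAt
      · intro y hy w hw
        rw [hFr] at hy ⊢
        exact hPS _ ((hW' w hw).2.1 y hy)
      · rw [hFr]
        exact hPi
      · rw [hFr]
        exact hPn
      · rw [hFr]
        exact fun y hy w hw => (hW' w hw).1 y hy
      · exact isOpen_image_of_LD isOpen_ball fun z hz =>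
          hLD i z (hsub (ball_subset_closedBall hz))
      · exact ((isCompact_closedBall _ _).image_of_continuousOn ((hBc i).mono hsub)).isClosed
    have hclose : ‖p' - p‖ ≤ δ / 2 := by
      rcases le_total (σ i p') (σ i p) with h | h
      · exact far p hp1 p' hp1' h hHH.symm (by rwa [norm_sub_rev])
      · rw [norm_sub_rev]
        exact far p' hp1' p hp1 h hHH hnear1
    have := near_inj θ δ hθ hθ80 hδ (fun q => F (B i q)) (fun q => H (B i q))
      (closedBall (0 : E n) 1) (convex_closedBall _ _) (D i) (T i) (σ i) (hσ0 i) (hσ i) (hT i)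
      (hHd i) (hD8 i) p p' hp1 hp1' hclose hHH.symm
    rw [this]
  · -- surjectivity
    intro y
    obtain ⟨x, rfl⟩ := g.surjective y
    have hro : IsOpen (range G) := by
      rw [← image_univ]
      exact isOpen_image_of_LD isOpen_univ fun z _ => hGLD z
    have hrc : IsClosed (range G) := (isCompact_range hGc).isClosed
    set w := F' x - F x with hw
    have hsw : ∀ a ∈ Icc (0 : ℝ) 1, ‖a • w‖ < ρ₁ := by
      intro a ha
      have h1 : ‖a • w‖ ≤ ‖w‖ := by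
        rw [norm_smul, Real.norm_of_nonneg ha.1]
        nlinarith [ha.2, norm_nonneg w]
      exact lt_of_le_of_lt h1 (hF'ρ1 x)
    have hcr : ∀ a ∈ Icc (0 : ℝ) 1, ∃ y, e y = P (F x + a • w) := fun a ha =>
      hPS _ ((hW' _ (hsw a ha)).2.1 _ (hF0 x))
    obtain ⟨γ, hγ⟩ : ∃ γ : ℝ → N, ∀ a ∈ Icc (0 : ℝ) 1, e (γ a) = P (F x + a • w) :=
      ⟨fun a => if h : ∃ y, e y = P (F x + a • w) then h.choose else g x, fun a ha => by
        simp only
        rw [dif_pos (hcr a ha)]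
        exact (hcr a ha).choose_spec⟩
    have hγc : ContinuousOn γ (Icc 0 1) := by
      rw [hemb.isInducing.continuousOn_iff]
      have h1 : ContinuousOn (fun a : ℝ => P (F x + a • w)) (Icc 0 1) := by
        intro a ha
        have h2 := (hPc _ ((hW' _ (hsw a ha)).2.1 _ (hF0 x))).continuousAt
        have h3 : ContinuousAt (fun a : ℝ => F x + a • w) a := by fun_prop
        exact (ContinuousAt.comp (f := fun a : ℝ => F x + a • w) h2 h3).continuousWithinAt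
      exact h1.congr fun a ha => hγ a ha
    have hpre : IsPreconnected (γ '' Icc 0 1) := isPreconnected_Icc.image γ hγc
    have h1 : γ 1 = G x := by
      apply hemb.injective
      rw [hγ 1 (by simp), hG, one_smul, hw, add_sub_cancel]
    have h0 : γ 0 = g x := by
      apply hemb.injective
      rw [hγ 0 (by simp), zero_smul, add_zero, hPi _ (hF0 x)]
    have hsub := hpre.subset_isClopen ⟨hrc, hro⟩ ⟨γ 1, ⟨1, by simp, rfl⟩, by
      rw [h1]
      exact mem_range_self x⟩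
    have := hsub ⟨0, by simp, rfl⟩
    rw [h0] at this
    exact this

end Pool.Agent.X169.NI
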