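import Pool.Agent.X169.NI.Glob
import Pool.Agent.X169.NM.Conv

/-! From charts, which depend on the time, to an embedding of the target. -/

set_option autoImplicit false

open Set Filter Topology Metric Function
open scoped Manifold ContDiff

noncomputable section

namespace Pool.Agent.X169.NI

open Pool.Agent.Y522 Pool.Agent.X169.NM
open Pool.Agent.X169.NL (small_ball)

/-- change of the chart of the target -/
theorem convT {n m : ℕ} {X N : Type} [TopologicalSpace X] [ChartedSpace (E n) X]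
    [TopologicalSpace N] [ChartedSpace (E n) N] [IsManifold (𝓡 n) ∞ N] (e : N → E m)
    (he : ContMDiff (𝓡 n) (𝓡 m) ∞ e) (hei : ∀ y, Injective (mfderiv (𝓡 n) (𝓡 m) e y))
    (g : ℝ → X → N) (hg : Continuous fun p : ℝ × X => g p.1 p.2) (τ : ℝ) (S₀ : Set ℝ)
    (A : E n → X) (hA : LD n A 0) (ψ : N → E n)
    (hψ : LD n ψ (g τ (A 0))) (K r : ℝ) (hr : 0 < r)
    (h : ∀ ε : ℝ, 0 < ε → ∃ r₀ : ℝ, 0 < r₀ ∧ ∀ t ∈ S₀, |t - τ| < r →
      NLin (fun x => ψ (g t x)) A ε K r r₀) :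
    ∃ K' r' : ℝ, 0 < r' ∧
      ∀ ε : ℝ, 0 < ε → ∃ r₀ : ℝ, 0 < r₀ ∧ ∀ t ∈ S₀, |t - τ| < r' →
        NLin (fun x => e (g t x)) A ε K' r' r₀ := by
  obtain ⟨k, hk, hk0, hkl, -⟩ := hψ.exists_inverse
  set u₀ := ψ (g τ (A 0)) with hu₀
  set κ : E n → E m := fun w => e (k w) with hκ
  obtain ⟨R, hR, hRk⟩ : ∃ R > 0, ∀ u ∈ closedBall u₀ R, LD n k u :=
    Metric.nhds_basis_closedBall.eventually_iff.1 hk.eventually
  have hκs : ∀ u ∈ closedBall u₀ R, ContDiffAt ℝ ∞ κ u := fun u hu => contDiffAt_comp he (hRk u hu)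
  have hκi : ∀ u ∈ closedBall u₀ R, Injective (fderiv ℝ κ u) := fun u hu =>
    fderiv_inj he (hRk u hu) (hei _)
  have hκc : ContinuousOn (fderiv ℝ κ) (closedBall u₀ R) := by
    intro u hu
    have h2 : ContDiffAt ℝ 1 κ u := (hκs u hu).of_le (by simp)
    exact ((h2.fderiv_right (m := 0) (by simp)).continuousAt).continuousWithinAt
  obtain ⟨c₁, hc₁, hc₁'⟩ : ∃ c : ℝ, 0 < c ∧ ∀ u ∈ closedBall u₀ R, ∀ v : E n,
      c * ‖v‖ ≤ ‖fderiv ℝ κ u v‖ := by
    have h1 : ContinuousOn (fun p : E n × E n => ‖fderiv ℝ κ p.1 p.2‖)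
        (closedBall u₀ R ×ˢ sphere 0 1) := by
      have h2 : ContinuousOn (fun p : E n × E n => fderiv ℝ κ p.1)
          (closedBall u₀ R ×ˢ sphere 0 1) :=
        hκc.comp continuousOn_fst fun p hp => hp.1
      exact (h2.clm_apply continuousOn_snd).norm
    obtain ⟨σ, hσ, hσ'⟩ := ((isCompact_closedBall u₀ R).prod
      (isCompact_sphere (0 : E n) 1)).exists_forall_le' h1 (a := 0) (by
      rintro ⟨z, v⟩ ⟨hz, hv⟩
      have hv' : v ≠ 0 := by
        rintro rfl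
        simp at hv
      exact norm_pos_iff.2 fun h3 => hv' (hκi z hz (by rw [h3, map_zero])))
    refine ⟨σ, hσ, fun u hu => low_of_small _ 1 _ one_pos fun v hv => ?_⟩
    rw [hv, mul_one]
    exact hσ' (u, v) ⟨hu, by simpa using hv⟩
  obtain ⟨c₂, hc₂⟩ := (isCompact_closedBall u₀ R).exists_bound_of_continuousOn hκc
  have hc₂0 : 0 ≤ c₂ := (norm_nonneg _).trans (hc₂ u₀ (mem_closedBall_self hR.le))
  -- the size of the domain
  obtain ⟨r₂, hr₂, hr₂c, hr₂R, hr₂k⟩ : ∃ r₂ : ℝ, 0 < r₂ ∧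
      ContinuousOn (fun z : ℝ × E n => ψ (g z.1 (A z.2))) (closedBall (τ, (0 : E n)) r₂) ∧
      (∀ z ∈ closedBall (τ, (0 : E n)) r₂, ψ (g z.1 (A z.2)) ∈ closedBall u₀ R) ∧
      ∀ z ∈ closedBall (τ, (0 : E n)) r₂, k (ψ (g z.1 (A z.2))) = g z.1 (A z.2) := by
    have hgA' : ∀ z : ℝ × E n, LD n A z.2 → ContinuousAt (fun z : ℝ × E n => g z.1 (A z.2)) z := by
      intro z hz
      have f1 : ContinuousAt (fun z : ℝ × E n => (z.1, A z.2)) z :=
        continuousAt_fst.prodMk (ContinuousAt.comp (f := Prod.snd) (x := z) hz.continuousAt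
          continuousAt_snd)
      exact ContinuousAt.comp (f := fun z : ℝ × E n => (z.1, A z.2)) hg.continuousAt f1
    have hgA : ContinuousAt (fun z : ℝ × E n => g z.1 (A z.2)) (τ, (0 : E n)) := hgA' _ hA
    have hsnd : Tendsto (fun z : ℝ × E n => z.2) (𝓝 (τ, (0 : E n))) (𝓝 (0 : E n)) :=
      continuous_snd.tendsto (τ, (0 : E n))
    have e1 : ∀ᶠ z : ℝ × E n in 𝓝 (τ, (0 : E n)), LD n A z.2 := hsnd.eventually hA.eventually
    have e2 : ∀ᶠ z : ℝ × E n in 𝓝 (τ, (0 : E n)), LD n ψ (g z.1 (A z.2)) :=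
      hgA.tendsto.eventually hψ.eventually
    have e3 : ∀ᶠ z : ℝ × E n in 𝓝 (τ, (0 : E n)), k (ψ (g z.1 (A z.2))) = g z.1 (A z.2) :=
      hgA.tendsto.eventually hkl
    have e4 : ContinuousAt (fun z : ℝ × E n => ψ (g z.1 (A z.2))) (τ, (0 : E n)) :=
      ContinuousAt.comp (f := fun z : ℝ × E n => g z.1 (A z.2)) hψ.continuousAt hgA
    have e5 : ∀ᶠ z in 𝓝 (τ, (0 : E n)), ψ (g z.1 (A z.2)) ∈ closedBall u₀ R :=
      e4 (closedBall_mem_nhds _ hR)
    obtain ⟨r₂, hr₂, hh⟩ := Metric.nhds_basis_closedBall.eventually_iff.1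
      (e1.and (e2.and (e3.and e5)))
    refine ⟨r₂, hr₂, ?_, fun z hz => (hh hz).2.2.2, fun z hz => (hh hz).2.2.1⟩
    intro z hz
    exact (ContinuousAt.comp (f := fun z : ℝ × E n => g z.1 (A z.2)) (hh hz).2.1.continuousAt
      (hgA' z (hh hz).1)).continuousWithinAt
  have hmem : ∀ (t : ℝ) (z : E n), |t - τ| ≤ r₂ → ‖z‖ ≤ r₂ →
      (t, z) ∈ closedBall (τ, (0 : E n)) r₂ := by
    intro t z ht hz
    rw [mem_closedBall, dist_eq_norm, Prod.norm_def]
    simp only [Prod.fst_sub, Prod.snd_sub, sub_zero]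
    exact max_le ht hz
  set K₁ := max K 1 with hK₁
  have hK₁1 : 1 ≤ K₁ := le_max_right _ _
  have hKK : K ≤ K₁ := le_max_left _ _
  refine ⟨c₂ * K₁ / c₁, min r (r₂ / 2), by positivity, ?_⟩
  intro ε' hε'
  set η : ℝ := c₁ * ε' / (4 * K₁) with hη
  have hη0 : 0 < η := by positivity
  set ε : ℝ := min 1 (c₁ * ε' / (2 * (c₂ + 1))) with hε
  have hε0 : 0 < ε := lt_min one_pos (by positivity)
  obtain ⟨r₀, hr₀, hN⟩ := h ε hε0
  obtain ⟨ρ, hρ, hρd⟩ := Metric.eventually_nhds_iff_ball.1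
    (unif_diff κ _ (isCompact_closedBall u₀ R) hκs η hη0)
  obtain ⟨r₃, hr₃, hr₃c⟩ := Metric.uniformContinuousOn_iff.1
    ((isCompact_closedBall (τ, (0 : E n)) r₂).uniformContinuousOn_of_continuous hr₂c) ρ hρ
  refine ⟨min r₀ (min (r₂ / 2) (r₃ / 2)), by positivity, ?_⟩
  intro t ht htτ p hp s hs hs'
  have hp1 : ‖p‖ ≤ r := hp.trans (min_le_left _ _)
  have hp2 : ‖p‖ ≤ r₂ / 2 := hp.trans (min_le_right _ _)
  have ht1 : |t - τ| < r := htτ.trans_le (min_le_left _ _)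
  have ht2 : |t - τ| ≤ r₂ := by
    have := htτ.trans_le (min_le_right _ _)
    linarith
  have hs1 : s ≤ r₀ := hs'.trans (min_le_left _ _)
  have hs2 : s ≤ r₂ / 2 := hs'.trans ((min_le_right _ _).trans (min_le_left _ _))
  have hs3 : s ≤ r₃ / 2 := hs'.trans ((min_le_right _ _).trans (min_le_right _ _))
  obtain ⟨T, l, hl, hT, hT'⟩ := hN t ht ht1 p hp1 s hs hs1
  have hpm : (t, p) ∈ closedBall (τ, (0 : E n)) r₂ := hmem t p ht2 (by linarith)
  have huR' : ψ (g t (A p)) ∈ closedBall u₀ R := hr₂R (t, p) hpm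
  obtain ⟨u, hu⟩ : ∃ u, u = ψ (g t (A p)) := ⟨_, rfl⟩
  have huR : u ∈ closedBall u₀ R := by rw [hu]; exact huR'
  refine ⟨(fderiv ℝ κ u).comp T, c₁ * l, by positivity, ?_, ?_⟩
  · intro v
    rw [ContinuousLinearMap.comp_apply]
    constructor
    · have e1 := hc₁' u huR (T v)
      have e2 := mul_le_mul_of_nonneg_left (hT v).1 hc₁.le
      linarith
    · have e1 : ‖fderiv ℝ κ u (T v)‖ ≤ c₂ * ‖T v‖ :=
        ((fderiv ℝ κ u).le_opNorm _).trans (mul_le_mul_of_nonneg_right (hc₂ u huR) (norm_nonneg _))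
      have e2 : c₂ * ‖T v‖ ≤ c₂ * (K₁ * (l * ‖v‖)) := by
        apply mul_le_mul_of_nonneg_left _ hc₂0
        exact (hT v).2.trans (mul_le_mul_of_nonneg_right hKK (by positivity))
      have e3 : c₂ * (K₁ * (l * ‖v‖)) = c₂ * K₁ / c₁ * (c₁ * l * ‖v‖) := by
        field_simp
      linarith
  · intro q hq
    have hqm : (t, q) ∈ closedBall (τ, (0 : E n)) r₂ := by
      apply hmem t q ht2
      have := norm_le_norm_add_norm_sub' q p
      linarith
    obtain ⟨w, hw⟩ : ∃ w, w = ψ (g t (A q)) - u := ⟨_, rfl⟩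
    have hwρ : w ∈ ball (0 : E n) ρ := by
      rw [mem_ball_zero_iff, hw, hu, ← dist_eq_norm]
      refine hr₃c (t, q) hqm (t, p) hpm ?_
      rw [dist_eq_norm, Prod.norm_def]
      simp only [Prod.fst_sub, Prod.snd_sub, sub_self, norm_zero]
      exact max_lt hr₃ (by linarith)
    have e1 := hρd w hwρ u huR
    have e2 : κ (u + w) = e (g t (A q)) := by
      rw [hw, add_sub_cancel, hκ]
      simp only
      rw [hr₂k (t, q) hqm]
    have e3 : κ u = e (g t (A p)) := by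
      rw [hκ]
      simp only
      rw [hu, hr₂k (t, p) hpm]
    rw [e2, e3] at e1
    have e4 := hT' q hq
    simp only at e4
    rw [← hu, ← hw] at e4
    have e5 : ‖T (q - p)‖ ≤ K₁ * (l * s) := by
      refine (hT (q - p)).2.trans ?_
      have : K * (l * ‖q - p‖) ≤ K₁ * (l * ‖q - p‖) :=
        mul_le_mul_of_nonneg_right hKK (by positivity)
      refine this.trans ?_
      gcongr
    have e6 : ‖w‖ ≤ 2 * K₁ * (l * s) := by
      have f1 : ‖w‖ ≤ ‖T (q - p)‖ + ‖w - T (q - p)‖ := by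
        have := norm_add_le (T (q - p)) (w - T (q - p))
        rwa [add_sub_cancel] at this
      have f2 : ε * l * s ≤ K₁ * (l * s) := by
        rw [mul_assoc]
        apply mul_le_mul_of_nonneg_right _ (by positivity)
        exact (min_le_left _ _).trans hK₁1
      linarith
    have e7 : e (g t (A q)) - e (g t (A p)) - (fderiv ℝ κ u).comp T (q - p) =
        (e (g t (A q)) - e (g t (A p)) - fderiv ℝ κ u w) + fderiv ℝ κ u (w - T (q - p)) := by
      have f1 : fderiv ℝ κ u (w - T (q - p)) =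
          fderiv ℝ κ u w - (fderiv ℝ κ u).comp T (q - p) := (fderiv ℝ κ u).map_sub w (T (q - p))
      rw [f1]
      abel
    rw [e7]
    refine (norm_add_le _ _).trans ?_
    have e8 : ‖fderiv ℝ κ u (w - T (q - p))‖ ≤ c₂ * (ε * l * s) :=
      ((fderiv ℝ κ u).le_opNorm _).trans (mul_le_mul (hc₂ u huR) e4 (norm_nonneg _) hc₂0)
    have e9 : η * ‖w‖ ≤ η * (2 * K₁ * (l * s)) := mul_le_mul_of_nonneg_left e6 hη0.le
    have e10 : η * (2 * K₁ * (l * s)) = c₁ * ε' / 2 * (l * s) := by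
      rw [hη]
      field_simp
      ring
    have e11 : c₂ * (ε * l * s) ≤ c₁ * ε' / 2 * (l * s) := by
      have f1 : c₂ * ε ≤ c₁ * ε' / 2 := by
        have f2 : ε ≤ c₁ * ε' / (2 * (c₂ + 1)) := min_le_right _ _
        calc c₂ * ε ≤ (c₂ + 1) * (c₁ * ε' / (2 * (c₂ + 1))) := by
              apply mul_le_mul (by linarith) f2 hε0.le (by linarith)
          _ = c₁ * ε' / 2 := by field_simp
      calc c₂ * (ε * l * s) = (c₂ * ε) * (l * s) := by ring
        _ ≤ _ := mul_le_mul_of_nonneg_right f1 (by positivity)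
    calc _ ≤ η * ‖w‖ + c₂ * (ε * l * s) := add_le_add e1 e8
      _ ≤ c₁ * ε' / 2 * (l * s) + c₁ * ε' / 2 * (l * s) := by linarith
      _ = ε' * (c₁ * l) * s := by ring

/-- change of the parametrization of the source -/
theorem convD {n m : ℕ} {X : Type} [TopologicalSpace X] [ChartedSpace (E n) X]
    (F : ℝ → X → E m) (S₀ : Set ℝ) (A A' : E n → X) (hA : LD n A 0) (hA' : LD n A' 0)
    (hAA : A 0 = A' 0) (K r : ℝ) (hr : 0 < r)
    (h : ∀ ε : ℝ, 0 < ε → ∃ r₀ : ℝ, 0 < r₀ ∧ ∀ t ∈ S₀, NLin (F t) A ε K r r₀) :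
    ∃ K' r' : ℝ, 0 < r' ∧
      ∀ ε : ℝ, 0 < ε → ∃ r₀ : ℝ, 0 < r₀ ∧ ∀ t ∈ S₀, NLin (F t) A' ε K' r' r₀ := by
  obtain ⟨b, hb, hb0, hbl, hbr⟩ := hA.exists_inverse
  rw [hAA] at hb
  set φ : E n → E n := fun z => b (A' z) with hφ
  have hφL : LD n φ 0 := LD.comp_fun (g := b) (f := A') hb hA'
  have hφ0 : φ 0 = 0 := by
    simp only [hφ]
    rw [← hAA]
    exact hb0
  have hAφ : ∀ᶠ z in 𝓝 (0 : E n), A (φ z) = A' z := by
    have h1 : Tendsto A' (𝓝 0) (𝓝 (A 0)) := by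
      rw [hAA]
      exact hA'.continuousAt
    exact h1.eventually hbr
  obtain ⟨R, hR, hh⟩ := Metric.nhds_basis_closedBall.eventually_iff.1 (hφL.eventually.and hAφ)
  have hφs : ∀ u ∈ closedBall (0 : E n) R, ContDiffAt ℝ ∞ φ u := fun u hu => (hh hu).1.contDiffAt
  have hφc : ContinuousOn (fderiv ℝ φ) (closedBall 0 R) := by
    intro u hu
    have h2 : ContDiffAt ℝ 1 φ u := (hφs u hu).of_le (by simp)
    exact ((h2.fderiv_right (m := 0) (by simp)).continuousAt).continuousWithinAt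
  have hφi : ∀ u ∈ closedBall (0 : E n) R, Injective (fderiv ℝ φ u) := fun u hu =>
    ((hh hu).1.bij).2.1
  obtain ⟨c₁, hc₁, hc₁'⟩ : ∃ c : ℝ, 0 < c ∧ ∀ u ∈ closedBall (0 : E n) R, ∀ v : E n,
      c * ‖v‖ ≤ ‖fderiv ℝ φ u v‖ := by
    have h1 : ContinuousOn (fun p : E n × E n => ‖fderiv ℝ φ p.1 p.2‖)
        (closedBall 0 R ×ˢ sphere 0 1) := by
      have h2 : ContinuousOn (fun p : E n × E n => fderiv ℝ φ p.1)
          (closedBall 0 R ×ˢ sphere 0 1) :=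
        hφc.comp continuousOn_fst fun p hp => hp.1
      exact (h2.clm_apply continuousOn_snd).norm
    obtain ⟨σ, hσ, hσ'⟩ := ((isCompact_closedBall (0 : E n) R).prod
      (isCompact_sphere (0 : E n) 1)).exists_forall_le' h1 (a := 0) (by
      rintro ⟨z, v⟩ ⟨hz, hv⟩
      have hv' : v ≠ 0 := by
        rintro rfl
        simp at hv
      exact norm_pos_iff.2 fun h3 => hv' (hφi z hz (by rw [h3, map_zero])))
    refine ⟨σ, hσ, fun u hu => low_of_small _ 1 _ one_pos fun v hv => ?_⟩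
    rw [hv, mul_one]
    exact hσ' (u, v) ⟨hu, by simpa using hv⟩
  obtain ⟨c₂', hc₂'⟩ := (isCompact_closedBall (0 : E n) R).exists_bound_of_continuousOn hφc
  set c₂ := max c₂' 1 with hc₂d
  have hc₂ : ∀ u ∈ closedBall (0 : E n) R, ‖fderiv ℝ φ u‖ ≤ c₂ := fun u hu =>
    (hc₂' u hu).trans (le_max_left _ _)
  have hc₂1 : 1 ≤ c₂ := le_max_right _ _
  set C : ℝ := c₂ + 1 with hC
  have hC0 : 0 < C := by linarith
  -- a small ball is mapped to the ball of radius `r`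
  obtain ⟨R', hR', hR'h⟩ : ∃ R' > 0, ∀ u ∈ closedBall (0 : E n) R', ‖φ u‖ ≤ r := by
    have h1 : ∀ᶠ u in 𝓝 (0 : E n), ‖φ u‖ ≤ r := by
      have h2 : Tendsto (fun u => ‖φ u‖) (𝓝 0) (𝓝 ‖φ 0‖) := hφL.continuousAt.norm
      rw [hφ0, norm_zero] at h2
      exact (h2.eventually (gt_mem_nhds hr)).mono fun u hu => hu.le
    exact Metric.nhds_basis_closedBall.eventually_iff.1 h1
  set K₁ := max K 1 with hK₁
  have hK₁1 : 1 ≤ K₁ := le_max_right _ _
  have hKK : K ≤ K₁ := le_max_left _ _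
  refine ⟨c₂ * K₁ / c₁, min (R / 2) R', by positivity, ?_⟩
  intro ε' hε'
  set η : ℝ := min 1 (c₁ * ε' / (2 * K₁)) with hη
  have hη0 : 0 < η := lt_min one_pos (by positivity)
  have hη1 : η ≤ 1 := min_le_left _ _
  have hη2 : η * (2 * K₁) ≤ c₁ * ε' := by
    have : η ≤ c₁ * ε' / (2 * K₁) := min_le_right _ _
    rwa [le_div_iff₀ (by positivity)] at this
  set ε : ℝ := c₁ * ε' / (2 * C) with hε
  have hε0 : 0 < ε := by positivity
  have hε1 : ε * C = c₁ * ε' / 2 := by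
    rw [hε]
    field_simp
  obtain ⟨r₀, hr₀, hN⟩ := h ε hε0
  obtain ⟨ρ, hρ, hρd⟩ := Metric.eventually_nhds_iff_ball.1
    (unif_diff φ _ (isCompact_closedBall (0 : E n) R) hφs η hη0)
  refine ⟨min (r₀ / C) (min (R / 2) (ρ / 2)), by positivity, ?_⟩
  intro t ht p hp s hs hs'
  have hp1 : ‖p‖ ≤ R / 2 := hp.trans (min_le_left _ _)
  have hp2 : ‖φ p‖ ≤ r := hR'h p (by
    rw [mem_closedBall_zero_iff]
    exact hp.trans (min_le_right _ _))
  have hs1 : s ≤ r₀ / C := hs'.trans (min_le_left _ _)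
  have hs2 : s ≤ R / 2 := hs'.trans ((min_le_right _ _).trans (min_le_left _ _))
  have hs3 : s ≤ ρ / 2 := hs'.trans ((min_le_right _ _).trans (min_le_right _ _))
  have hCs : C * s ≤ r₀ := by
    rw [le_div_iff₀ hC0] at hs1
    linarith
  obtain ⟨T, l, hl, hT, hT'⟩ := hN t ht (φ p) hp2 (C * s) (by positivity) hCs
  have hpm : p ∈ closedBall (0 : E n) R := by
    rw [mem_closedBall_zero_iff]
    linarith
  refine ⟨T.comp (fderiv ℝ φ p), c₁ * l, by positivity, ?_, ?_⟩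
  · intro v
    rw [ContinuousLinearMap.comp_apply]
    constructor
    · have e1 := hc₁' p hpm v
      have e2 := mul_le_mul_of_nonneg_left e1 hl.le
      have e3 := (hT (fderiv ℝ φ p v)).1
      linarith
    · have e1 : ‖fderiv ℝ φ p v‖ ≤ c₂ * ‖v‖ :=
        ((fderiv ℝ φ p).le_opNorm _).trans
          (mul_le_mul_of_nonneg_right (hc₂ p hpm) (norm_nonneg _))
      have e2 : ‖T (fderiv ℝ φ p v)‖ ≤ K₁ * (l * (c₂ * ‖v‖)) := by
        refine (hT _).2.trans ?_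
        exact mul_le_mul hKK (mul_le_mul_of_nonneg_left e1 hl.le) (by positivity) (by positivity)
      have e3 : K₁ * (l * (c₂ * ‖v‖)) = c₂ * K₁ / c₁ * (c₁ * l * ‖v‖) := by
        field_simp
      linarith
  · intro q hq
    have hqm : q ∈ closedBall (0 : E n) R := by
      rw [mem_closedBall_zero_iff]
      have := norm_le_norm_add_norm_sub' q p
      linarith
    have e1 := hρd (q - p) (by rw [mem_ball_zero_iff]; linarith) p hpm
    rw [add_sub_cancel] at e1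
    have e2 : ‖fderiv ℝ φ p (q - p)‖ ≤ c₂ * s :=
      ((fderiv ℝ φ p).le_opNorm _).trans (mul_le_mul (hc₂ p hpm) hq (norm_nonneg _) (by linarith))
    have e3 : η * ‖q - p‖ ≤ η * s := mul_le_mul_of_nonneg_left hq hη0.le
    have e4 : ‖φ q - φ p‖ ≤ C * s := by
      have f1 : ‖φ q - φ p‖ ≤ ‖fderiv ℝ φ p (q - p)‖ + ‖φ q - φ p - fderiv ℝ φ p (q - p)‖ :=
        norm_le_norm_add_norm_sub' _ _
      have f2 : η * s ≤ 1 * s := mul_le_mul_of_nonneg_right hη1 hs.le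
      rw [hC]
      linarith
    have e5 := hT' (φ q) e4
    rw [(hh hqm).2, (hh hpm).2] at e5
    have e6 : ‖T (φ q - φ p - fderiv ℝ φ p (q - p))‖ ≤ K₁ * (l * (η * s)) := by
      refine (hT _).2.trans ?_
      exact mul_le_mul hKK (mul_le_mul_of_nonneg_left (e1.trans e3) hl.le) (by positivity)
        (by positivity)
    have e7 : F t (A' q) - F t (A' p) - T.comp (fderiv ℝ φ p) (q - p) =
        (F t (A' q) - F t (A' p) - T (φ q - φ p)) + T (φ q - φ p - fderiv ℝ φ p (q - p)) := by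
      have f1 : T (φ q - φ p - fderiv ℝ φ p (q - p)) =
          T (φ q - φ p) - T.comp (fderiv ℝ φ p) (q - p) := T.map_sub _ _
      rw [f1]
      abel
    rw [e7]
    refine (norm_add_le _ _).trans ?_
    have e8 : ε * l * (C * s) = c₁ * ε' / 2 * (l * s) := by
      calc ε * l * (C * s) = (ε * C) * (l * s) := by ring
        _ = _ := by rw [hε1]
    have e9 : K₁ * (l * (η * s)) ≤ c₁ * ε' / 2 * (l * s) := by
      calc K₁ * (l * (η * s)) = (η * (2 * K₁)) / 2 * (l * s) := by ring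
        _ ≤ c₁ * ε' / 2 * (l * s) := by
          apply mul_le_mul_of_nonneg_right _ (by positivity)
          linarith
    calc _ ≤ ε * l * (C * s) + K₁ * (l * (η * s)) := add_le_add e5 e6
      _ ≤ c₁ * ε' / 2 * (l * s) + c₁ * ε' / 2 * (l * s) := by linarith
      _ = ε' * (c₁ * l) * s := by ring

/-- **Main theorem**, in charts. -/
theorem path_charts {n : ℕ} (hn : 0 < n) {M N : Type} [TopologicalSpace M]
    [ChartedSpace (E n) M] [IsManifold (𝓡 n) ∞ M] [TopologicalSpace N] [T2Space N]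
    [CompactSpace N] [ChartedSpace (E n) N] [IsManifold (𝓡 n) ∞ N]
    (h : ℝ → M ≃ₜ N) (hc : Continuous fun p : ℝ × M => h p.1 p.2)
    (h0 : ∀ x, LD n (h 0) x) (h1 : ∀ x, LD n (h 1) x)
    (hh : ∀ s ∈ Icc (0 : ℝ) 1, ∀ x, ∃ (A : E n → M) (ψ : N → E n) (K r : ℝ), A 0 = x ∧
      LD n A 0 ∧ LD n ψ (h s x) ∧ 0 < r ∧
      ∀ ε : ℝ, 0 < ε → ∃ r₀ : ℝ, 0 < r₀ ∧ ∀ t ∈ Icc (0 : ℝ) 1, |t - s| < r →
        NLin (fun x => ψ (h t x)) A ε K r r₀) :
    ∃ G : ℝ → M → N, ContMDiff (𝓘(ℝ, ℝ).prod (𝓡 n)) (𝓡 n) ∞ (fun p : ℝ × M => G p.1 p.2) ∧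
      (∀ t, Bijective (G t) ∧ ∀ x, LD n (G t) x) ∧ (∀ x, G 0 x = h 0 x) ∧
      ∀ x, G 1 x = h 1 x := by
  classical
  obtain ⟨m, e, he, hemb, hei⟩ := exists_embedding_euclidean_of_compact (I := 𝓡 n) (M := N)
  have : CompactSpace M := (h 0).symm.compactSpace
  refine glob_asym hn e he hemb.isEmbedding hei M h hc h0 h1 ?_
  intro x
  obtain ⟨A₀, hA₀, hA₀L⟩ := exists_param (n := n) x
  have key : ∀ s ∈ Icc (0 : ℝ) 1, ∃ K r : ℝ, 0 < r ∧ ∀ ε : ℝ, 0 < ε → ∃ r₀ : ℝ, 0 < r₀ ∧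
      ∀ t ∈ Icc (0 : ℝ) 1 ∩ ball s r, NLin (fun x => e (h t x)) A₀ ε K r r₀ := by
    intro s hs
    obtain ⟨A, ψ, K, r, hA0, hA, hψ, hr, hN⟩ := hh s hs x
    rw [← hA0] at hψ
    obtain ⟨K', r', hr', hN'⟩ := convT e he hei (fun t x => h t x) hc s (Icc (0 : ℝ) 1) A hA ψ hψ
      K r hr hN
    obtain ⟨K'', r'', hr'', hN''⟩ := convD (fun t x => e (h t x)) (Icc (0 : ℝ) 1 ∩ ball s r')
      A A₀ hA hA₀L (by rw [hA0, hA₀]) K' r' hr' (by
        intro ε hε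
        obtain ⟨r₀, hr₀, hh'⟩ := hN' ε hε
        refine ⟨r₀, hr₀, fun t ht => hh' t ht.1 ?_⟩
        have := ht.2
        rwa [mem_ball, Real.dist_eq] at this)
    refine ⟨K'', min r' r'', lt_min hr' hr'', fun ε hε => ?_⟩
    obtain ⟨r₀, hr₀, hh'⟩ := hN'' ε hε
    refine ⟨r₀, hr₀, fun t ht p hp => hh' t ⟨ht.1, ball_subset_ball (min_le_left _ _) ht.2⟩ p
      (hp.trans (min_le_right _ _))⟩
  choose! K r hr hN using key
  obtain ⟨S, hScov⟩ := isCompact_Icc.elim_nhds_subcover' (X := ℝ) (s := Icc (0 : ℝ) 1)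
    (fun s _ => ball s (r s)) (fun s hs => ball_mem_nhds _ (hr s hs))
  obtain ⟨K', hK'⟩ := (S.image fun s => K s.1).exists_le
  obtain ⟨r', hr', hr''⟩ : ∃ c : ℝ, 0 < c ∧ ∀ s ∈ S, c ≤ r s.1 := by
    rcases S.eq_empty_or_nonempty with h | h
    · exact ⟨1, one_pos, by simp [h]⟩
    · obtain ⟨x, hx, hx'⟩ := S.exists_min_image (fun s => r s.1) h
      exact ⟨r x.1, hr x.1 x.2, hx'⟩
  refine ⟨A₀, K', r', hA₀, hA₀L, hr', fun ε hε => ?_⟩
  have hch : ∀ s : Icc (0 : ℝ) 1, ∃ r₀ : ℝ, 0 < r₀ ∧ ∀ t ∈ Icc (0 : ℝ) 1 ∩ ball s.1 (r s.1),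
      NLin (fun x => e (h t x)) A₀ ε (K s.1) (r s.1) r₀ := fun s => hN s.1 s.2 ε hε
  choose ρ hρ hρN using hch
  obtain ⟨ρ', hρ', hρ''⟩ : ∃ c : ℝ, 0 < c ∧ ∀ s ∈ S, c ≤ ρ s := by
    rcases S.eq_empty_or_nonempty with h | h
    · exact ⟨1, one_pos, by simp [h]⟩
    · obtain ⟨x, hx, hx'⟩ := S.exists_min_image ρ h
      exact ⟨ρ x, hρ x, hx'⟩
  refine ⟨ρ', hρ', fun t ht p hp q hq hq' => ?_⟩
  have h2 := hScov ht
  simp only [mem_iUnion] at h2
  obtain ⟨s, hs, hts⟩ := h2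
  obtain ⟨T, l, hl, hT, hT'⟩ := hρN s t ⟨ht, hts⟩ p (hp.trans (hr'' s hs)) q hq
    (hq'.trans (hρ'' s hs))
  refine ⟨T, l, hl, fun v => ⟨(hT v).1, (hT v).2.trans ?_⟩, hT'⟩
  exact mul_le_mul_of_nonneg_right (hK' _ (Finset.mem_image_of_mem _ hs)) (by positivity)

end Pool.Agent.X169.NI
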