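import Pool.Agent.X169.NM.Clos

/-! Smoothness in all variables, and the estimate at a smooth end of the path. -/

set_option autoImplicit false

open Set Filter Topology Metric Function
open scoped Manifold ContDiff

noncomputable section

namespace Pool.Agent.X169.NI

open Pool.Agent.Y522 Pool.Agent.X169.NM

variable {n m : ℕ}

/-- smooth in the charts of a cover -/
theorem chart_smooth {X : Type} [TopologicalSpace X] [ChartedSpace (E n) X]
    {ι : Type} (B : ι → E n → X)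
    (hLD : ∀ j, ∀ z ∈ closedBall (0 : E n) 2, LD n (B j) z)
    (hcov : ∀ x, ∃ j, x ∈ B j '' closedBall 0 (1 / 2)) (Φ : X → E m)
    (hsm : ∀ i, ∀ w ∈ ball (0 : E n) 2, ContDiffAt ℝ ∞ (fun y => Φ (B i y)) w) :
    ContMDiff (𝓡 n) (𝓡 m) ∞ Φ := by
  intro x
  obtain ⟨i, z, hz, rfl⟩ := hcov x
  have hz2 : z ∈ closedBall (0 : E n) 2 := closedBall_subset_closedBall (by norm_num) hz
  have hz2' : z ∈ ball (0 : E n) 2 := closedBall_subset_ball (by norm_num) hz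
  obtain ⟨b, hb, hb0, -, hbr⟩ := (hLD i z hz2).exists_inverse
  have h1 : ContMDiffAt (𝓡 n) (𝓡 m) ∞ (fun y => Φ (B i (b y))) (B i z) := by
    refine ContMDiffAt.comp (I' := 𝓡 n) (f := b) (g := fun q => Φ (B i q)) (B i z) ?_
      hb.contMDiffAt
    rw [hb0]
    exact (hsm i z hz2').contMDiffAt
  refine h1.congr_of_eventuallyEq ?_
  filter_upwards [hbr] with y hy
  rw [hy]

/-- a lift through an embedding is smooth -/
theorem joint_smooth {Z N : Type} {F₀ : Type} [NormedAddCommGroup F₀] [NormedSpace ℝ F₀]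
    {H₀ : Type} [TopologicalSpace H₀] (I : ModelWithCorners ℝ F₀ H₀)
    [TopologicalSpace Z] [ChartedSpace H₀ Z]
    [TopologicalSpace N] [ChartedSpace (E n) N] [IsManifold (𝓡 n) ∞ N] (e : N → E m)
    (he : ContMDiff (𝓡 n) (𝓡 m) ∞ e) (hemb : IsEmbedding e)
    (hei : ∀ y, Injective (mfderiv (𝓡 n) (𝓡 m) e y))
    (U : Set (E m)) (P : E m → E m) (hU : IsOpen U) (hP : ContDiffOn ℝ ∞ P U)
    (Fc : Z → E m) (hFc : ContMDiff I (𝓡 m) ∞ Fc) (hFU : ∀ p, Fc p ∈ U)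
    (G : Z → N) (hG : ∀ p, e (G p) = P (Fc p)) : ContMDiff I (𝓡 n) ∞ G := by
  have hH : ContMDiff I (𝓡 m) ∞ (fun p => e (G p)) := by
    intro p
    have h1 : ContDiffAt ℝ ∞ P (Fc p) := (hP _ (hFU p)).contDiffAt (hU.mem_nhds (hFU p))
    have h2 : ContMDiffAt I (𝓡 m) ∞ (fun p => P (Fc p)) p :=
      ContMDiffAt.comp (I' := 𝓡 m) p h1.contMDiffAt (hFc p)
    refine h2.congr_of_eventuallyEq (Eventually.of_forall fun q => hG q)
  have hGc : Continuous G := by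
    rw [hemb.isInducing.continuous_iff]
    exact hH.continuous
  intro p
  obtain ⟨A, hA⟩ := emb_coord e he (G p) (hei _)
  obtain ⟨k, hk, hk0, hkl, -⟩ := hA.exists_inverse
  have h1 : ContMDiffAt I (𝓡 n) ∞ (fun q => A (e (G q))) p :=
    ContMDiffAt.comp (I' := 𝓡 m) p A.contDiff.contDiffAt.contMDiffAt (hH p)
  have h2 : ContMDiffAt I (𝓡 n) ∞ (fun q => k (A (e (G q)))) p :=
    ContMDiffAt.comp (I' := 𝓡 n) p hk.contMDiffAt h1
  refine h2.congr_of_eventuallyEq ?_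
  filter_upwards [hGc.continuousAt.eventually hkl] with q hq
  exact hq.symm

/-- the estimate for a smooth map -/
theorem endpt {X N : Type} [TopologicalSpace X] [ChartedSpace (E n) X]
    [IsManifold (𝓡 n) ∞ X] [TopologicalSpace N]
    [ChartedSpace (E n) N] [IsManifold (𝓡 n) ∞ N]
    (g : X → N) (hg : ∀ x, LD n g x) (e : N → E m) (he : ContMDiff (𝓡 n) (𝓡 m) ∞ e)
    (hei : ∀ y, Injective (mfderiv (𝓡 n) (𝓡 m) e y))
    {ι : Type} [Fintype ι] (B : ι → E n → X)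
    (hLD : ∀ j, ∀ z ∈ closedBall (0 : E n) 2, LD n (B j) z)
    (K ε θ : ℝ) (hK : 1 ≤ K) (hθ : 0 < θ) (hεθ : ε ≤ θ) (hε1 : ε ≤ 1) :
    (∀ i, ∀ w ∈ ball (0 : E n) 2, ContDiffAt ℝ ∞ (fun y => e (g (B i y))) w) ∧
    ∃ δ₃ : ℝ, 0 < δ₃ ∧ ∀ δ : ℝ, 0 < δ → δ ≤ δ₃ → ∀ i, ∀ z ∈ closedBall (0 : E n) 1,
      ∀ (T : E n →L[ℝ] E m) (l : ℝ), 0 < l → (∀ v, l * ‖v‖ ≤ ‖T v‖ ∧ ‖T v‖ ≤ K * (l * ‖v‖)) →
        (∀ q, ‖q - z‖ ≤ δ → ‖e (g (B i q)) - e (g (B i z)) - T (q - z)‖ ≤ ε * l * δ) →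
        ∀ v, ‖v‖ = 1 → ‖fderiv ℝ (fun y => e (g (B i y))) z v - T v‖ ≤ 2 * θ * ‖T v‖ := by
  have hK0 : 0 < K := by linarith
  have s12 : closedBall (0 : E n) 1 ⊆ closedBall 0 2 := closedBall_subset_closedBall (by norm_num)
  have hLD' : ∀ j, ∀ z ∈ closedBall (0 : E n) 2, LD n (fun q => g (B j q)) z := fun j z hz =>
    LD.comp_fun (g := g) (f := B j) (hg _) (hLD j z hz)
  have hsm : ∀ i, ∀ w ∈ closedBall (0 : E n) 2, ContDiffAt ℝ ∞ (fun y => e (g (B i y))) w :=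
    fun i w hw => contDiffAt_comp (B := fun q => g (B i q)) he (hLD' i w hw)
  refine ⟨fun i w hw => hsm i w (ball_subset_closedBall hw), ?_⟩
  -- lower bound of the derivative
  obtain ⟨c₀, hc₀, hc₀'⟩ : ∃ c₀ : ℝ, 0 < c₀ ∧ ∀ i, ∀ z ∈ closedBall (0 : E n) 1, ∀ v : E n,
      ‖v‖ = 1 → c₀ ≤ ‖fderiv ℝ (fun y => e (g (B i y))) z v‖ := by
    have h1 : ∀ i, ∃ c : ℝ, 0 < c ∧ ∀ z ∈ closedBall (0 : E n) 1, ∀ v : E n,
        ‖v‖ = 1 → c ≤ ‖fderiv ℝ (fun y => e (g (B i y))) z v‖ := by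
      intro i
      have hc : IsCompact (closedBall (0 : E n) 1 ×ˢ sphere (0 : E n) 1) :=
        (isCompact_closedBall _ _).prod (isCompact_sphere _ _)
      obtain ⟨c, hc0, hc1⟩ := hc.exists_forall_le'
        (f := fun p : E n × E n => ‖fderiv ℝ (fun y => e (g (B i y))) p.1 p.2‖) (by
          rintro ⟨z, v⟩ ⟨hz, -⟩
          have h2 : ContDiffAt ℝ 1 (fun y => e (g (B i y))) z := (hsm i z (s12 hz)).of_le (by simp)
          have h3 : ContinuousAt (fderiv ℝ (fun y => e (g (B i y)))) z :=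
            (h2.fderiv_right (m := 0) (by simp)).continuousAt
          have h4 : ContinuousAt (fun p : E n × E n => fderiv ℝ (fun y => e (g (B i y))) p.1)
              (z, v) := ContinuousAt.comp (f := Prod.fst) (x := (z, v)) h3 continuousAt_fst
          exact (h4.clm_apply continuousAt_snd).norm.continuousWithinAt) (a := 0) (by
          rintro ⟨z, v⟩ ⟨hz, hv⟩
          simp only
          rw [norm_pos_iff]
          intro hcon
          have h2 := fderiv_inj (B := fun q => g (B i q)) he (hLD' i z (s12 hz)) (hei _)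
          have h3 : v = 0 := h2 (by rw [map_zero]; exact hcon)
          rw [mem_sphere_zero_iff_norm, h3, norm_zero] at hv
          exact zero_ne_one hv)
      refine ⟨c, hc0, fun z hz v hv => hc1 (z, v) ⟨hz, by
        rw [mem_sphere_zero_iff_norm]
        exact hv⟩⟩
    choose c hc hc' using h1
    rcases isEmpty_or_nonempty ι with h | h
    · exact ⟨1, one_pos, fun i => h.elim i⟩
    · obtain ⟨i₀, hi₀⟩ := Finite.exists_min c
      exact ⟨c i₀, hc i₀, fun i z hz v hv => (hi₀ i).trans (hc' i z hz v hv)⟩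
  obtain ⟨η, hη, hη1, hη2⟩ : ∃ η : ℝ, 0 < η ∧ η ≤ c₀ / 2 ∧ η ≤ θ * (c₀ / (4 * K)) :=
    ⟨min (c₀ / 2) (θ * (c₀ / (4 * K))), by positivity, min_le_left _ _, min_le_right _ _⟩
  have hev : ∀ᶠ v in 𝓝 (0 : E n), ∀ i, ∀ z ∈ closedBall (0 : E n) 1,
      ‖e (g (B i (z + v))) - e (g (B i z)) - fderiv ℝ (fun y => e (g (B i y))) z v‖ ≤ η * ‖v‖ := by
    rw [eventually_all]
    intro i
    exact unif_diff (fun y => e (g (B i y))) _ (isCompact_closedBall _ _)
      (fun z hz => hsm i z (s12 hz)) η hη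
  obtain ⟨δ₃, hδ₃, hδ₃'⟩ := Metric.eventually_nhds_iff_ball.1 hev
  refine ⟨δ₃ / 2, by positivity, ?_⟩
  intro δ hδ hδ3 i z hz T l hl hT hTq v hv
  have hvn : ‖δ • v‖ = δ := by rw [norm_smul, hv, mul_one, Real.norm_of_nonneg hδ.le]
  have h1 := hδ₃' (δ • v) (by rw [mem_ball_zero_iff, hvn]; linarith) i z hz
  have h2 := hTq (z + δ • v) (by rw [add_sub_cancel_left, hvn])
  rw [add_sub_cancel_left, map_smul] at h2
  rw [map_smul, hvn] at h1
  set D := fderiv ℝ (fun y => e (g (B i y))) z v with hD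
  set a := e (g (B i (z + δ • v))) - e (g (B i z)) with ha
  have h3 : ‖δ • D - δ • T v‖ ≤ η * δ + ε * l * δ := by
    have h4 : δ • D - δ • T v = (a - δ • T v) - (a - δ • D) := by abel
    rw [h4]
    refine (norm_sub_le _ _).trans ?_
    linarith
  have h5 : ‖D - T v‖ ≤ η + ε * l := by
    rw [← smul_sub, norm_smul, Real.norm_of_nonneg hδ.le] at h3
    have h6 : δ * ‖D - T v‖ ≤ δ * (η + ε * l) := by linarith
    exact le_of_mul_le_mul_left h6 hδ
  have h6 := hc₀' i z hz v hv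
  have h7 : ‖D‖ ≤ ‖T v‖ + ‖D - T v‖ := norm_le_norm_add_norm_sub' D (T v)
  have h8 := hT v
  rw [hv, mul_one] at h8
  have h9 : c₀ / 2 ≤ 2 * K * l := by
    have e1 : ε * l ≤ K * l := mul_le_mul_of_nonneg_right (hε1.trans hK) hl.le
    linarith [h8.2]
  have h10 : c₀ / (4 * K) ≤ l := by
    rw [div_le_iff₀ (by positivity)]
    linarith
  have h11 : η ≤ θ * ‖T v‖ := hη2.trans (mul_le_mul_of_nonneg_left (h10.trans h8.1) hθ.le)
  have h12 : ε * l ≤ θ * ‖T v‖ := mul_le_mul hεθ h8.1 hl.le hθ.le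
  linarith

end Pool.Agent.X169.NI
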