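import Pool.Agent.X169.NM.Clos

/-! Estimates which are uniform in the time. -/

set_option autoImplicit false

open Set Filter Topology Metric Function
open scoped Manifold ContDiff

noncomputable section

namespace Pool.Agent.X169.NI

open Pool.Agent.Y522 Pool.Agent.X169.NM

variable {n m : ℕ}

/-- uniform statements about the retraction -/
theorem rho_one (S U : Set (E m)) (P : E m → E m) (hU : IsOpen U) (hSU : S ⊆ U)
    (hSc : IsCompact S) (hP : ContDiffOn ℝ ∞ P U) (θ : ℝ) (hθ : 0 < θ) :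
    ∃ ρ₁ : ℝ, 0 < ρ₁ ∧ ∀ w : E m, ‖w‖ < ρ₁ → (∀ y ∈ S,
      ‖P (y + w) - P y - fderiv ℝ P y w‖ ≤ θ * ‖w‖) ∧ (∀ y ∈ S, y + w ∈ U) ∧
      ∀ y ∈ S, ‖fderiv ℝ P (y + w) - fderiv ℝ P y‖ ≤ θ := by
  have hPc : ∀ y ∈ U, ContDiffAt ℝ ∞ P y := fun y hy => (hP y hy).contDiffAt (hU.mem_nhds hy)
  have W1 : ∀ᶠ w in 𝓝 (0 : E m), ∀ y ∈ S,
      ‖P (y + w) - P y - fderiv ℝ P y w‖ ≤ θ * ‖w‖ :=
    unif_diff P _ hSc (fun y hy => hPc y (hSU hy)) θ hθ
  have c1 : ∀ y : E m, Tendsto (fun p : E m × E m => p.2 + p.1) (𝓝 ((0 : E m), y)) (𝓝 y) := by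
    intro y
    have : Continuous (fun p : E m × E m => p.2 + p.1) := by fun_prop
    have h := this.tendsto ((0 : E m), y)
    simpa using h
  have W2 : ∀ᶠ w in 𝓝 (0 : E m), ∀ y ∈ S, y + w ∈ U := by
    apply hSc.eventually_forall_of_forall_eventually
    intro y hy
    exact (c1 y).eventually (hU.mem_nhds (hSU hy))
  have W3 : ∀ᶠ w in 𝓝 (0 : E m), ∀ y ∈ S, ‖fderiv ℝ P (y + w) - fderiv ℝ P y‖ ≤ θ := by
    apply hSc.eventually_forall_of_forall_eventually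
    intro y hy
    have h1 : ContDiffAt ℝ 1 P y := (hPc y (hSU hy)).of_le (by simp)
    have h3 : ContinuousAt (fderiv ℝ P) y := (h1.fderiv_right (m := 0) (by simp)).continuousAt
    have c2 : Tendsto (fun p : E m × E m => p.2) (𝓝 ((0 : E m), y)) (𝓝 y) :=
      continuous_snd.tendsto ((0 : E m), y)
    have c3 : Tendsto (fun p : E m × E m => ‖fderiv ℝ P (p.2 + p.1) - fderiv ℝ P p.2‖)
        (𝓝 ((0 : E m), y)) (𝓝 ‖fderiv ℝ P y - fderiv ℝ P y‖) :=
      ((h3.tendsto.comp (c1 y)).sub (h3.tendsto.comp c2)).norm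
    rw [sub_self, norm_zero] at c3
    exact (c3.eventually (gt_mem_nhds hθ)).mono fun p hp => hp.le
  obtain ⟨ρ₁, hρ₁, hW⟩ := Metric.eventually_nhds_iff_ball.1 (W1.and (W2.and W3))
  exact ⟨ρ₁, hρ₁, fun w hw => hW w (by rwa [mem_ball_zero_iff])⟩

variable {X : Type} [TopologicalSpace X] [ChartedSpace (E n) X]

/-- near points lie in one chart -/
theorem eta_one [T2Space X] [CompactSpace X] (F : ℝ → X → E m)
    (hF : Continuous fun p : ℝ × X => F p.1 p.2)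
    (hFi : ∀ t, Injective (F t)) {ι : Type} (B : ι → E n → X)
    (hLD : ∀ j, ∀ z ∈ closedBall (0 : E n) 2, LD n (B j) z)
    (hcov : ∀ x, ∃ j, x ∈ B j '' closedBall 0 (1 / 2)) :
    ∃ η₁ : ℝ, 0 < η₁ ∧ ∀ t ∈ Icc (0 : ℝ) 1, ∀ x x' : X, ‖F t x - F t x'‖ < η₁ →
      ∃ i, ∃ p ∈ closedBall (0 : E n) (3 / 4), ∃ p' ∈ closedBall (0 : E n) (3 / 4),
        x = B i p ∧ x' = B i p' := by
  set V : Set (X × X) := ⋃ i, (B i '' ball 0 (3 / 4)) ×ˢ (B i '' ball 0 (3 / 4)) with hV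
  have hVo : IsOpen V := isOpen_iUnion fun i => by
    have h1 : IsOpen (B i '' ball 0 (3 / 4)) := isOpen_image_of_LD isOpen_ball fun z hz =>
      hLD i z (closedBall_subset_closedBall (by norm_num) (ball_subset_closedBall hz))
    exact h1.prod h1
  have hVc : IsCompact (Icc (0 : ℝ) 1 ×ˢ Vᶜ) := isCompact_Icc.prod hVo.isClosed_compl.isCompact
  obtain ⟨η₁, hη₁, hη₁'⟩ := hVc.exists_forall_le'
    (f := fun p : ℝ × (X × X) => ‖F p.1 p.2.1 - F p.1 p.2.2‖)
    (by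
      have e1 : Continuous fun p : ℝ × (X × X) => F p.1 p.2.1 :=
        hF.comp (continuous_fst.prodMk (continuous_fst.comp continuous_snd))
      have e2 : Continuous fun p : ℝ × (X × X) => F p.1 p.2.2 :=
        hF.comp (continuous_fst.prodMk (continuous_snd.comp continuous_snd))
      exact (e1.sub e2).norm.continuousOn) (a := 0) (by
      rintro ⟨t, x, x'⟩ ⟨-, hx⟩
      rw [norm_pos_iff, sub_ne_zero]
      intro hcon
      apply hx
      have h2 : x = x' := hFi t hcon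
      obtain ⟨i, hi⟩ := hcov x
      have h3 : x ∈ B i '' ball 0 (3 / 4) :=
        image_mono (closedBall_subset_ball (by norm_num)) hi
      exact mem_iUnion.2 ⟨i, h3, by
        change x' ∈ _
        rwa [← h2]⟩)
  refine ⟨η₁, hη₁, fun t ht x x' hxx => ?_⟩
  by_contra hcon
  have h1 : (x, x') ∈ Vᶜ := by
    intro h2
    obtain ⟨i, ⟨p, hp, hpx⟩, p', hp', hpx'⟩ := mem_iUnion.1 h2
    exact hcon ⟨i, p, ball_subset_closedBall hp, p', ball_subset_closedBall hp', hpx.symm,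
      hpx'.symm⟩
  have h2 := hη₁' (t, x, x') ⟨ht, h1⟩
  simp only at h2
  linarith

/-- the oscillation -/
theorem osc (F : ℝ → X → E m) (hF : Continuous fun p : ℝ × X => F p.1 p.2)
    {ι : Type} [Finite ι] (B : ι → E n → X)
    (hLD : ∀ j, ∀ z ∈ closedBall (0 : E n) 2, LD n (B j) z) (ρ₂ : ℝ) (hρ₂ : 0 < ρ₂) :
    ∃ δ₂ : ℝ, 0 < δ₂ ∧ ∀ t ∈ Icc (0 : ℝ) 1, ∀ i, ∀ z ∈ closedBall (0 : E n) 1, ∀ v : E n,
      ‖v‖ < δ₂ → ‖F t (B i (z + v)) - F t (B i z)‖ ≤ ρ₂ := by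
  have s12 : closedBall (0 : E n) 1 ⊆ closedBall 0 2 := closedBall_subset_closedBall (by norm_num)
  have U4 : ∀ᶠ v in 𝓝 (0 : E n), ∀ i, ∀ q ∈ Icc (0 : ℝ) 1 ×ˢ closedBall (0 : E n) 1,
      ‖F q.1 (B i (q.2 + v)) - F q.1 (B i q.2)‖ ≤ ρ₂ := by
    rw [eventually_all]
    intro i
    apply (isCompact_Icc.prod (isCompact_closedBall (0 : E n) 1)).eventually_forall_of_forall_eventually
    rintro ⟨t, z⟩ ⟨-, hz⟩
    have c0 : ContinuousAt (fun w : ℝ × E n => F w.1 (B i w.2)) (t, z) := by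
      have e1 : ContinuousAt (fun w : ℝ × E n => (w.1, B i w.2)) (t, z) :=
        continuousAt_fst.prodMk (ContinuousAt.comp (f := Prod.snd) (x := (t, z))
          (hLD i z (s12 hz)).continuousAt continuousAt_snd)
      exact ContinuousAt.comp (f := fun w : ℝ × E n => (w.1, B i w.2)) hF.continuousAt e1
    have c1 : Tendsto (fun p : E n × (ℝ × E n) => (p.2.1, p.2.2 + p.1)) (𝓝 ((0 : E n), (t, z)))
        (𝓝 (t, z)) := by
      have : Continuous (fun p : E n × (ℝ × E n) => (p.2.1, p.2.2 + p.1)) := by fun_prop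
      have h := this.tendsto ((0 : E n), (t, z))
      simpa using h
    have c2 : Tendsto (fun p : E n × (ℝ × E n) => (p.2.1, p.2.2)) (𝓝 ((0 : E n), (t, z)))
        (𝓝 (t, z)) := by
      have : Continuous (fun p : E n × (ℝ × E n) => (p.2.1, p.2.2)) := by fun_prop
      exact this.tendsto ((0 : E n), (t, z))
    have c3 : Tendsto (fun p : E n × (ℝ × E n) =>
        ‖F p.2.1 (B i (p.2.2 + p.1)) - F p.2.1 (B i p.2.2)‖)
        (𝓝 ((0 : E n), (t, z))) (𝓝 ‖F t (B i z) - F t (B i z)‖) :=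
      ((c0.tendsto.comp c1).sub (c0.tendsto.comp c2)).norm
    rw [sub_self, norm_zero] at c3
    exact (c3.eventually (gt_mem_nhds hρ₂)).mono fun p hp => hp.le
  obtain ⟨δ₂, hδ₂, hU4⟩ := Metric.eventually_nhds_iff_ball.1 U4
  exact ⟨δ₂, hδ₂, fun t ht i z hz v hv => hU4 v (by rwa [mem_ball_zero_iff]) i (t, z) ⟨ht, hz⟩⟩

/-- lower bound for the displacement -/
theorem cdel (F : ℝ → X → E m) (hF : Continuous fun p : ℝ × X => F p.1 p.2)
    (hFi : ∀ t, Injective (F t)) {ι : Type} [Finite ι] (B : ι → E n → X)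
    (hinj : ∀ j, InjOn (B j) (closedBall 0 2))
    (hLD : ∀ j, ∀ z ∈ closedBall (0 : E n) 2, LD n (B j) z) (w : E n) (hw : w ≠ 0)
    (hw1 : ‖w‖ ≤ 1) :
    ∃ c : ℝ, 0 < c ∧ ∀ t ∈ Icc (0 : ℝ) 1, ∀ i, ∀ z ∈ closedBall (0 : E n) 1,
      c ≤ ‖F t (B i (z + w)) - F t (B i z)‖ := by
  have s12 : closedBall (0 : E n) 1 ⊆ closedBall 0 2 := closedBall_subset_closedBall (by norm_num)
  have hzw : ∀ z ∈ closedBall (0 : E n) 1, z + w ∈ closedBall (0 : E n) 2 := by
    intro z hz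
    rw [mem_closedBall_zero_iff] at hz ⊢
    linarith [norm_add_le z w]
  have h1 : ∀ i, ∃ c : ℝ, 0 < c ∧ ∀ t ∈ Icc (0 : ℝ) 1, ∀ z ∈ closedBall (0 : E n) 1,
      c ≤ ‖F t (B i (z + w)) - F t (B i z)‖ := by
    intro i
    obtain ⟨c, hc0, hc1⟩ := (isCompact_Icc.prod (isCompact_closedBall (0 : E n) 1)).exists_forall_le'
      (f := fun q : ℝ × E n => ‖F q.1 (B i (q.2 + w)) - F q.1 (B i q.2)‖) (by
        rintro ⟨t, z⟩ ⟨-, hz⟩
        have c0 : ∀ z' ∈ closedBall (0 : E n) 2,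
            ContinuousAt (fun w : ℝ × E n => F w.1 (B i w.2)) (t, z') := by
          intro z' hz'
          have e1 : ContinuousAt (fun w : ℝ × E n => (w.1, B i w.2)) (t, z') :=
            continuousAt_fst.prodMk (ContinuousAt.comp (f := Prod.snd) (x := (t, z'))
              (hLD i z' hz').continuousAt continuousAt_snd)
          exact ContinuousAt.comp (f := fun w : ℝ × E n => (w.1, B i w.2)) hF.continuousAt e1
        have c1 : ContinuousAt (fun q : ℝ × E n => F q.1 (B i (q.2 + w))) (t, z) := by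
          have e1 : ContinuousAt (fun q : ℝ × E n => (q.1, q.2 + w)) (t, z) := by fun_prop
          exact ContinuousAt.comp (g := fun w : ℝ × E n => F w.1 (B i w.2))
            (f := fun q : ℝ × E n => (q.1, q.2 + w)) (c0 _ (hzw z hz)) e1
        exact (c1.sub (c0 z (s12 hz))).norm.continuousWithinAt) (a := 0) (by
        rintro ⟨t, z⟩ ⟨-, hz⟩
        rw [norm_pos_iff, sub_ne_zero]
        intro hcon
        have h2 := hinj i (hzw z hz) (s12 hz) (hFi t hcon)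
        exact hw (by simpa using h2))
    exact ⟨c, hc0, fun t ht z hz => hc1 (t, z) ⟨ht, hz⟩⟩
  choose c hc hc' using h1
  rcases isEmpty_or_nonempty ι with h | h
  · exact ⟨1, one_pos, fun t ht i => h.elim i⟩
  · obtain ⟨i₀, hi₀⟩ := Finite.exists_min c
    exact ⟨c i₀, hc i₀, fun t ht i z hz => (hi₀ i).trans (hc' i t ht z hz)⟩

omit [ChartedSpace (E n) X] in
/-- uniform continuity in the time -/
theorem tunif [CompactSpace X] (F : ℝ → X → E m) (hF : Continuous fun p : ℝ × X => F p.1 p.2)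
    (η : ℝ) (hη : 0 < η) : ∃ ζ : ℝ, 0 < ζ ∧ ∀ t ∈ Icc (0 : ℝ) 1, ∀ s : ℝ, |t - s| < ζ →
      ∀ x, ‖F s x - F t x‖ ≤ η := by
  have U4 : ∀ᶠ u in 𝓝 (0 : ℝ), ∀ q ∈ Icc (0 : ℝ) 1 ×ˢ (univ : Set X),
      ‖F (q.1 + u) q.2 - F q.1 q.2‖ ≤ η := by
    apply (isCompact_Icc.prod isCompact_univ).eventually_forall_of_forall_eventually
    rintro ⟨t, x⟩ -
    have c1 : Continuous (fun p : ℝ × (ℝ × X) => F (p.2.1 + p.1) p.2.2) :=
      hF.comp (((continuous_fst.comp continuous_snd).add continuous_fst).prodMk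
        (continuous_snd.comp continuous_snd))
    have c2 : Continuous (fun p : ℝ × (ℝ × X) => F p.2.1 p.2.2) := hF.comp continuous_snd
    have c3 : Tendsto (fun p : ℝ × (ℝ × X) => ‖F (p.2.1 + p.1) p.2.2 - F p.2.1 p.2.2‖)
        (𝓝 ((0 : ℝ), (t, x))) (𝓝 ‖F (t + 0) x - F t x‖) :=
      (c1.sub c2).norm.tendsto ((0 : ℝ), (t, x))
    rw [add_zero, sub_self, norm_zero] at c3
    exact (c3.eventually (gt_mem_nhds hη)).mono fun p hp => hp.le
  obtain ⟨ζ, hζ, hU⟩ := Metric.eventually_nhds_iff_ball.1 U4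
  refine ⟨ζ, hζ, fun t ht s hs x => ?_⟩
  have h1 := hU (s - t) (by
    rw [mem_ball_zero_iff, Real.norm_eq_abs, abs_sub_comm]
    exact hs) (t, x) ⟨ht, mem_univ _⟩
  simp only [add_sub_cancel] at h1
  exact h1

end Pool.Agent.X169.NI
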