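import Pool.Agent.X169.NI.Wt
import Pool.Agent.X169.NI.Sm
import Pool.Agent.X169.NI.Unif
import Pool.Agent.X169.NI.Core
import Pool.Agent.X169.NI.Clos

/-! Smoothing of a path of homeomorphisms, with fixed charts. -/

set_option autoImplicit false

open Set Filter Topology Metric Function
open scoped Manifold ContDiff

noncomputable section

namespace Pool.Agent.X169.NI

open Pool.Agent.Y522 Pool.Agent.X169.NM

theorem path_main {n m : ℕ} (hn : 0 < n) {X N : Type} [TopologicalSpace X] [T2Space X]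
    [CompactSpace X] [ChartedSpace (E n) X] [IsManifold (𝓡 n) ∞ X] [TopologicalSpace N]
    [ChartedSpace (E n) N] [IsManifold (𝓡 n) ∞ N]
    (h : ℝ → X ≃ₜ N) (hc : Continuous fun p : ℝ × X => h p.1 p.2)
    (h0 : ∀ x, LD n (h 0) x) (h1 : ∀ x, LD n (h 1) x)
    (e : N → E m) (he : ContMDiff (𝓡 n) (𝓡 m) ∞ e) (hemb : IsEmbedding e)
    (hei : ∀ y, Injective (mfderiv (𝓡 n) (𝓡 m) e y))
    (U : Set (E m)) (P : E m → E m) (hU : IsOpen U) (hSU : range e ⊆ U)
    (hP : ContDiffOn ℝ ∞ P U) (hPS : ∀ y ∈ U, P y ∈ range e) (hPi : ∀ y ∈ range e, P y = y)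
    (Λ : ℝ) (hΛ : 1 ≤ Λ) (hPn : ∀ y ∈ range e, ‖fderiv ℝ P y‖ ≤ Λ)
    (L : ℝ) (hL : 1 ≤ L) {ι : Type} [Fintype ι] (B : ι → E n → X)
    (hinj : ∀ j, InjOn (B j) (closedBall 0 2))
    (hLD : ∀ j, ∀ z ∈ closedBall (0 : E n) 2, LD n (B j) z)
    (htr : ∀ i j, ∀ p ∈ closedBall (0 : E n) 2, ∀ p' ∈ closedBall (0 : E n) 2,
      ∀ q ∈ closedBall (0 : E n) 2, ∀ q' ∈ closedBall (0 : E n) 2,
      B i p = B j q → B i p' = B j q' → ‖q' - q‖ ≤ L * ‖p' - p‖)
    (K r₀ : ℝ) (hK : 1 ≤ K) (hr₀ : 0 < r₀)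
    (hbox : ∀ t ∈ Icc (0 : ℝ) 1, ∀ j,
      NB (fun x => e (h t x)) (B j) (ep n L (1 / (160 * Λ)) / 2) K r₀)
    (hcov : ∀ x, ∃ j, x ∈ B j '' closedBall 0 (1 / 2)) :
    ∃ G : ℝ → X → N, ContMDiff (𝓘(ℝ, ℝ).prod (𝓡 n)) (𝓡 n) ∞ (fun p : ℝ × X => G p.1 p.2) ∧
      (∀ t, Bijective (G t) ∧ ∀ x, LD n (G t) x) ∧ (∀ x, G 0 x = h 0 x) ∧
      ∀ x, G 1 x = h 1 x := by
  classical
  have hΛ0 : 0 < Λ := by linarith
  have hK0 : 0 < K := by linarith
  obtain ⟨θ, hθd⟩ : ∃ θ : ℝ, θ = 1 / (80 * Λ) := ⟨_, rfl⟩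
  have hθ2 : 1 / (160 * Λ) = θ / 2 := by
    rw [hθd]
    field_simp
    norm_num
  rw [hθ2] at hbox
  have hθ : 0 < θ := by rw [hθd]; positivity
  have hΛθ : 80 * Λ * θ = 1 := by rw [hθd]; field_simp
  have hθ80 : θ ≤ 1 / 80 := by
    rw [hθd]
    apply one_div_le_one_div_of_le (by norm_num)
    linarith
  obtain ⟨ε, hεd⟩ : ∃ ε : ℝ, ε = ep n L (θ / 2) := ⟨_, rfl⟩
  have hε : 0 < ε := by rw [hεd]; exact ep_pos n hL (by positivity)
  have hε18 : ε ≤ θ / 36 := by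
    have := ep_le' n hL (show 0 < θ / 2 by positivity)
    rw [hεd]
    linarith
  rw [← hεd] at hbox
  set F : ℝ → X → E m := fun t x => e (h t x) with hFd
  have hF : Continuous fun p : ℝ × X => F p.1 p.2 := hemb.continuous.comp hc
  have hFt : ∀ t, Continuous (F t) := fun t => hemb.continuous.comp (h t).continuous
  have hFi : ∀ t, Injective (F t) := fun t => hemb.injective.comp (h t).injective
  have hF0 : ∀ t x, F t x ∈ range e := fun t x => ⟨h t x, rfl⟩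
  have : CompactSpace N := (h 0).compactSpace
  have hSc : IsCompact (range e) := isCompact_range hemb.continuous
  have s12 : closedBall (0 : E n) 1 ⊆ closedBall 0 2 := closedBall_subset_closedBall (by norm_num)
  -- the constants
  obtain ⟨ρ₁, hρ₁, hW'⟩ := rho_one (range e) U P hU hSU hSc hP θ hθ
  obtain ⟨η₁, hη₁, hη⟩ := eta_one F hF hFi B hLD hcov
  obtain ⟨ρ₂, hρ₂, hρ₂1, hρ₂2⟩ : ∃ ρ₂ : ℝ, 0 < ρ₂ ∧ 4 * (Λ + 1) * ρ₂ ≤ ρ₁ ∧
      4 * (Λ + 1) * ρ₂ ≤ η₁ := by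
    refine ⟨min ρ₁ η₁ / (4 * (Λ + 1)), ?_, ?_, ?_⟩
    · have : 0 < min ρ₁ η₁ := lt_min hρ₁ hη₁
      positivity
    · rw [mul_div_cancel₀ _ (by positivity)]
      exact min_le_left _ _
    · rw [mul_div_cancel₀ _ (by positivity)]
      exact min_le_right _ _
  obtain ⟨δ₂, hδ₂, hosc⟩ := osc F hF B hLD ρ₂ hρ₂
  obtain ⟨sm0, δ₃, hδ₃, end0⟩ := endpt (h 0) h0 e he hei B hLD K (ε / 2) θ hK hθ (by linarith)
    (by linarith)
  obtain ⟨sm1, δ₄, hδ₄, end1⟩ := endpt (h 1) h1 e he hei B hLD K (ε / 2) θ hK hθ (by linarith)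
    (by linarith)
  obtain ⟨δ₀, hδ₀, hcore⟩ := coreT (X := X) (m := m) L (θ / 2) hL (by positivity) (by linarith)
    B hinj hLD htr K hK hcov
  obtain ⟨δ, hδ, hδa, hδb, hδc, hδd, hδe, hδf⟩ : ∃ δ : ℝ, 0 < δ ∧ δ ≤ δ₀ ∧ δ < δ₂ ∧ δ ≤ δ₃ ∧
      δ ≤ δ₄ ∧ δ ≤ r₀ ∧ δ ≤ 1 / 4 := by
    refine ⟨min (min (min δ₀ (δ₂ / 2)) (min δ₃ δ₄)) (min r₀ (1 / 4)), by positivity, ?_, ?_, ?_,
      ?_, ?_, ?_⟩
    · exact (min_le_left _ _).trans ((min_le_left _ _).trans (min_le_left _ _))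
    · refine lt_of_le_of_lt ((min_le_left _ _).trans ((min_le_left _ _).trans
        (min_le_right _ _))) (by linarith)
    · exact (min_le_left _ _).trans ((min_le_right _ _).trans (min_le_left _ _))
    · exact (min_le_left _ _).trans ((min_le_right _ _).trans (min_le_right _ _))
    · exact (min_le_right _ _).trans (min_le_left _ _)
    · exact (min_le_right _ _).trans (min_le_right _ _)
  obtain ⟨Ψ, hΨs, hΨ⟩ := hcore δ hδ hδa
  -- the linear maps
  have hpt : ∀ t : ℝ, ∀ i, ∀ z : E n, ∃ (T : E n →L[ℝ] E m) (l : ℝ), t ∈ Icc (0 : ℝ) 1 →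
      ‖z‖ ≤ 1 → 0 < l ∧ (∀ v, l * ‖v‖ ≤ ‖T v‖ ∧ ‖T v‖ ≤ K * (l * ‖v‖)) ∧
      ∀ q, ‖q - z‖ ≤ δ → ‖F t (B i q) - F t (B i z) - T (q - z)‖ ≤ ε / 2 * l * δ := by
    intro t i z
    by_cases ht : t ∈ Icc (0 : ℝ) 1
    · by_cases hz : ‖z‖ ≤ 1
      · obtain ⟨T, l, hl, hT, hT'⟩ := hbox t ht i z hz δ hδ hδe
        exact ⟨T, l, fun _ _ => ⟨hl, hT, hT'⟩⟩
      · exact ⟨0, 0, fun _ h => absurd h hz⟩
    · exact ⟨0, 0, fun h => absurd h ht⟩
  choose T l hTl using hpt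
  -- the lower bound
  obtain ⟨v₀, hv₀⟩ := exists_unit hn
  have hwn : ‖δ • v₀‖ = δ := by rw [norm_smul, hv₀, mul_one, Real.norm_of_nonneg hδ.le]
  obtain ⟨c, hc0, hcc⟩ := cdel F hF hFi B hinj hLD (δ • v₀) (by
    rw [← norm_pos_iff, hwn]
    exact hδ) (by rw [hwn]; linarith)
  have hlow : ∀ t ∈ Icc (0 : ℝ) 1, ∀ i, ∀ z ∈ closedBall (0 : E n) 1, c ≤ 2 * K * (l t i z * δ) := by
    intro t ht i z hz
    have hz1 : ‖z‖ ≤ 1 := by rwa [mem_closedBall_zero_iff] at hz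
    obtain ⟨hl, hT, hT'⟩ := hTl t i z ht hz1
    have e1 := hcc t ht i z hz
    have e2 := hT' (z + δ • v₀) (by rw [add_sub_cancel_left, hwn])
    rw [add_sub_cancel_left] at e2
    have e3 := (hT (δ • v₀)).2
    rw [hwn] at e3
    have e4 : ‖F t (B i (z + δ • v₀)) - F t (B i z)‖ ≤ ‖T t i z (δ • v₀)‖ +
        ‖F t (B i (z + δ • v₀)) - F t (B i z) - T t i z (δ • v₀)‖ :=
      norm_le_norm_add_norm_sub' _ _
    have e5 : ε / 2 * l t i z * δ ≤ K * (l t i z * δ) := by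
      rw [mul_assoc]
      apply mul_le_mul_of_nonneg_right _ (by positivity)
      linarith
    linarith
  -- the step in the time
  obtain ⟨η, hηd⟩ : ∃ η : ℝ, η = ε * c / (8 * K) := ⟨_, rfl⟩
  have hη0 : 0 < η := by rw [hηd]; positivity
  obtain ⟨ζ, hζ, hun⟩ := tunif F hF η hη0
  obtain ⟨C, _, _, W, σ, τ, c₀, c₁, hcne, hWs, hW0, hW1, hτ, hσ, hWζ, hWa, hWb, hWc, hWd⟩ :=
    weights ζ hζ
  have hηl : ∀ t ∈ Icc (0 : ℝ) 1, ∀ i, ∀ z ∈ closedBall (0 : E n) 1,
      η ≤ ε / 4 * (l t i z * δ) := by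
    intro t ht i z hz
    have e1 := hlow t ht i z hz
    rw [hηd, div_le_iff₀ (by positivity)]
    have e2 := mul_le_mul_of_nonneg_left e1 hε.le
    linarith
  -- the functions
  set Φ : C → X → E m := fun k => if k = c₀ then F 0 else if k = c₁ then F 1 else Ψ (F (σ k))
    with hΦ
  have hΦs : ∀ k, ∀ i, ∀ w ∈ ball (0 : E n) 2, ContDiffAt ℝ ∞ (fun y => Φ k (B i y)) w := by
    intro k i w hw
    by_cases e1 : k = c₀
    · simp only [hΦ, if_pos e1]
      exact sm0 i w hw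
    · by_cases e2 : k = c₁
      · simp only [hΦ, if_neg e1, if_pos e2]
        exact sm1 i w hw
      · simp only [hΦ, if_neg e1, if_neg e2]
        exact hΨs _ (hFt _) i w hw
  have good : ∀ k t, W k t ≠ 0 → ∀ i, ∀ z ∈ closedBall (0 : E n) 1,
      (∀ v, ‖v‖ = 1 → ‖Φ k (B i z) - F (τ t) (B i z)‖ ≤ θ * ‖T (τ t) i z v‖ * δ) ∧
      (∀ v, ‖v‖ = 1 → ‖fderiv ℝ (fun y => Φ k (B i y)) z v - T (τ t) i z v‖ ≤
        2 * θ * ‖T (τ t) i z v‖) := by
    intro k t hk i z hz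
    have hz1 : ‖z‖ ≤ 1 := by rwa [mem_closedBall_zero_iff] at hz
    obtain ⟨hl, hT, hT'⟩ := hTl (τ t) i z (hτ t) hz1
    by_cases e1 : k = c₀
    · have e3 : τ t = 0 := hWa t (by rwa [← e1])
      rw [e3] at hl hT hT' ⊢
      simp only [hΦ, if_pos e1]
      refine ⟨fun v _ => ?_, end0 δ hδ hδc i z hz _ _ hl hT hT'⟩
      rw [sub_self, norm_zero]
      positivity
    · by_cases e2 : k = c₁
      · have e3 : τ t = 1 := hWb t (by rwa [← e2])
        rw [e3] at hl hT hT' ⊢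
        simp only [hΦ, if_neg e1, if_pos e2]
        refine ⟨fun v _ => ?_, end1 δ hδ hδd i z hz _ _ hl hT hT'⟩
        rw [sub_self, norm_zero]
        positivity
      · simp only [hΦ, if_neg e1, if_neg e2]
        have hcl : ∀ x, ‖F (σ k) x - F (τ t) x‖ ≤ η := hun (τ t) (hτ t) (σ k) (hWζ k t hk)
        have key := hΨ (F (σ k)) (hFt _) (T (τ t)) (l (τ t)) (by
          intro j w hw
          obtain ⟨gl, gT, gT'⟩ := hTl (τ t) j w (hτ t) hw
          refine ⟨gl, gT, fun q hq => ?_⟩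
          have g1 := gT' q hq
          have g2 := hcl (B j q)
          have g3 := hcl (B j w)
          have g4 := hηl (τ t) (hτ t) j w (by rwa [mem_closedBall_zero_iff])
          rw [← hεd]
          have g5 : F (σ k) (B j q) - F (σ k) (B j w) - T (τ t) j w (q - w) =
              (F (τ t) (B j q) - F (τ t) (B j w) - T (τ t) j w (q - w)) +
              (F (σ k) (B j q) - F (τ t) (B j q)) - (F (σ k) (B j w) - F (τ t) (B j w)) := by
            abel
          rw [g5]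
          refine (norm_sub_le _ _).trans ?_
          have g6 := norm_add_le (F (τ t) (B j q) - F (τ t) (B j w) - T (τ t) j w (q - w))
            (F (σ k) (B j q) - F (τ t) (B j q))
          linarith) i z hz
        refine ⟨fun v hv => ?_, fun v hv => (key.2 v hv).trans ?_⟩
        · have g1 := key.1 v hv
          have g2 := hcl (B i z)
          have g3 := hηl (τ t) (hτ t) i z hz
          have g4 : l (τ t) i z ≤ ‖T (τ t) i z v‖ := by
            have := (hT v).1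
            rwa [hv, mul_one] at this
          have g5 : ε / 4 * (l (τ t) i z * δ) ≤ θ / 2 * ‖T (τ t) i z v‖ * δ := by
            rw [← mul_assoc]
            apply mul_le_mul_of_nonneg_right _ hδ.le
            exact mul_le_mul (by linarith) g4 hl.le (by positivity)
          have g6 : Ψ (F (σ k)) (B i z) - F (τ t) (B i z) =
              (Ψ (F (σ k)) (B i z) - F (σ k) (B i z)) + (F (σ k) (B i z) - F (τ t) (B i z)) := by
            abel
          rw [g6]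
          refine (norm_add_le _ _).trans ?_
          linarith
        · have := norm_nonneg (T (τ t) i z v)
          nlinarith
  -- the convex combination
  set Fc : ℝ → X → E m := fun t x => ∑ k, W k t • Φ k x with hFc
  have hFcs : ∀ t, ∀ i, ∀ w ∈ ball (0 : E n) 2, ContDiffAt ℝ ∞ (fun y => Fc t (B i y)) w := by
    intro t i w hw
    simp only [hFc]
    refine ContDiffAt.sum fun k _ => ?_
    have e1 : ContDiffAt ℝ ∞ (fun _ : E n => W k t) w := contDiffAt_const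
    exact e1.smul (hΦs k i w hw)
  have goodc : ∀ t, ∀ i, ∀ z ∈ closedBall (0 : E n) 1,
      (∀ v, ‖v‖ = 1 → ‖Fc t (B i z) - F (τ t) (B i z)‖ ≤ θ * ‖T (τ t) i z v‖ * δ) ∧
      (∀ v, ‖v‖ = 1 → ‖fderiv ℝ (fun y => Fc t (B i y)) z v - T (τ t) i z v‖ ≤
        2 * θ * ‖T (τ t) i z v‖) := by
    intro t i z hz
    have hz2 : z ∈ ball (0 : E n) 2 := closedBall_subset_ball (by norm_num) hz
    refine ⟨fun v hv => ?_, fun v hv => ?_⟩
    · have e1 : Fc t (B i z) - F (τ t) (B i z) = ∑ k, W k t • (Φ k (B i z) - F (τ t) (B i z)) := by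
        simp only [hFc, smul_sub, Finset.sum_sub_distrib, ← Finset.sum_smul, hW1, one_smul]
      rw [e1]
      calc ‖∑ k, W k t • (Φ k (B i z) - F (τ t) (B i z))‖
          ≤ ∑ k, W k t * (θ * ‖T (τ t) i z v‖ * δ) := by
            refine norm_sum_le_of_le _ fun k _ => ?_
            rw [norm_smul, Real.norm_of_nonneg (hW0 _ _)]
            by_cases hk : W k t = 0
            · simp [hk]
            · exact mul_le_mul_of_nonneg_left ((good k t hk i z hz).1 v hv) (hW0 _ _)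
        _ = θ * ‖T (τ t) i z v‖ * δ := by rw [← Finset.sum_mul, hW1, one_mul]
    · have hd : ∀ k, HasFDerivAt (fun y => Φ k (B i y)) (fderiv ℝ (fun y => Φ k (B i y)) z) z :=
        fun k => ((hΦs k i z hz2).differentiableAt (by simp)).hasFDerivAt
      have hd2 : HasFDerivAt (fun y => Fc t (B i y))
          (∑ k, W k t • fderiv ℝ (fun y => Φ k (B i y)) z) z := by
        simp only [hFc]
        refine HasFDerivAt.fun_sum fun k _ => ?_
        exact (hd k).const_smul (W k t)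
      rw [hd2.fderiv]
      have e1 : (∑ k, W k t • fderiv ℝ (fun y => Φ k (B i y)) z) v - T (τ t) i z v =
          ∑ k, W k t • (fderiv ℝ (fun y => Φ k (B i y)) z v - T (τ t) i z v) := by
        simp only [ContinuousLinearMap.sum_apply, ContinuousLinearMap.smul_apply, smul_sub,
          Finset.sum_sub_distrib, ← Finset.sum_smul, hW1, one_smul]
      rw [e1]
      calc ‖∑ k, W k t • (fderiv ℝ (fun y => Φ k (B i y)) z v - T (τ t) i z v)‖
          ≤ ∑ k, W k t * (2 * θ * ‖T (τ t) i z v‖) := by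
            refine norm_sum_le_of_le _ fun k _ => ?_
            rw [norm_smul, Real.norm_of_nonneg (hW0 _ _)]
            by_cases hk : W k t = 0
            · simp [hk]
            · exact mul_le_mul_of_nonneg_left ((good k t hk i z hz).2 v hv) (hW0 _ _)
        _ = 2 * θ * ‖T (τ t) i z v‖ := by rw [← Finset.sum_mul, hW1, one_mul]
  have hclos : ∀ t, (∀ x, Fc t x ∈ U) ∧ ∀ G : X → N, (∀ x, e (G x) = P (Fc t x)) →
      Bijective G ∧ ∀ x, LD n G x := by
    intro t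
    refine closA hn (h (τ t)) e he hemb hei U P hU hP hPS hPi Λ hΛ hPn θ hθ hΛθ ρ₁ η₁ ρ₂ hρ₂
      hρ₂1 hρ₂2 hW' B hinj hLD hcov (hη (τ t) (hτ t)) δ hδ hδf ?_ (Fc t) (hFcs t) (T (τ t))
      (l (τ t)) ?_
    · intro i z hz v hv
      exact hosc (τ t) (hτ t) i z hz v (lt_of_le_of_lt hv hδb)
    · intro i z hz
      have hz1 : ‖z‖ ≤ 1 := by rwa [mem_closedBall_zero_iff] at hz
      obtain ⟨hl, hT, hT'⟩ := hTl (τ t) i z (hτ t) hz1
      refine ⟨hl, fun v => (hT v).1, fun q hq => (hT' q hq).trans ?_, (goodc t i z hz).1,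
        (goodc t i z hz).2⟩
      rw [mul_assoc, mul_assoc]
      exact mul_le_mul_of_nonneg_right (by linarith) (by positivity)
  have hex : ∀ t x, ∃ y, e y = P (Fc t x) := fun t x => hPS _ ((hclos t).1 x)
  choose G hG using hex
  refine ⟨G, ?_, fun t => (hclos t).2 (G t) (hG t), ?_, ?_⟩
  · refine joint_smooth (𝓘(ℝ, ℝ).prod (𝓡 n)) e he hemb hei U P hU hP
      (fun p : ℝ × X => Fc p.1 p.2) ?_ (fun p => (hclos p.1).1 p.2) _ (fun p => hG p.1 p.2)
    simp only [hFc]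
    refine contMDiff_finsetSum fun k _ => ?_
    have e1 : ContMDiff (𝓘(ℝ, ℝ).prod (𝓡 n)) 𝓘(ℝ, ℝ) ∞ (fun p : ℝ × X => W k p.1) :=
      (hWs k).contMDiff.comp contMDiff_fst
    have e2 : ContMDiff (𝓘(ℝ, ℝ).prod (𝓡 n)) (𝓡 m) ∞ (fun p : ℝ × X => Φ k p.2) :=
      (chart_smooth B hLD hcov (Φ k) (hΦs k)).comp contMDiff_snd
    exact e1.smul e2
  · intro x
    apply hemb.injective
    rw [hG]
    have e1 : ∀ k, k ≠ c₀ → W k 0 = 0 := by
      intro k hk
      have e2 := hW1 0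
      rw [Fintype.sum_eq_add_sum_compl c₀, hWc] at e2
      have e3 : ∑ k ∈ {c₀}ᶜ, W k 0 = 0 := by linarith
      exact (Finset.sum_eq_zero_iff_of_nonneg (fun k _ => hW0 k 0)).1 e3 k (by simpa using hk)
    have e2 : Fc 0 x = F 0 x := by
      simp only [hFc]
      rw [Finset.sum_eq_single c₀ (fun k _ hk => by rw [e1 k hk, zero_smul]) (by simp), hWc,
        one_smul]
      simp [hΦ]
    rw [e2]
    exact hPi _ (hF0 0 x)
  · intro x
    apply hemb.injective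
    rw [hG]
    have e1 : ∀ k, k ≠ c₁ → W k 1 = 0 := by
      intro k hk
      have e2 := hW1 1
      rw [Fintype.sum_eq_add_sum_compl c₁, hWd] at e2
      have e3 : ∑ k ∈ {c₁}ᶜ, W k 1 = 0 := by linarith
      exact (Finset.sum_eq_zero_iff_of_nonneg (fun k _ => hW0 k 1)).1 e3 k (by simpa using hk)
    have e2 : Fc 1 x = F 1 x := by
      simp only [hFc]
      rw [Finset.sum_eq_single c₁ (fun k _ hk => by rw [e1 k hk, zero_smul]) (by simp), hWd,
        one_smul]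
      simp [hΦ, hcne.symm]
    rw [e2]
    exact hPi _ (hF0 1 x)

end Pool.Agent.X169.NI
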