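import Mathlib

/-! Weights for the time variable. -/

set_option autoImplicit false

open Set Filter Topology Metric Function
open scoped Manifold ContDiff

noncomputable section

namespace Pool.Agent.X169.NI

private abbrev st : ℝ → ℝ := Real.smoothTransition

theorem pou (ζ : ℝ) (hζ : 0 < ζ) : ∃ (κ : ℕ) (w : Fin (κ + 1) → ℝ → ℝ) (s : Fin (κ + 1) → ℝ),
    (∀ k, s k ∈ Icc (0 : ℝ) 1) ∧ (∀ k, ContDiff ℝ ∞ (w k)) ∧ (∀ k t, 0 ≤ w k t) ∧
    (∀ t ∈ Icc (0 : ℝ) 1, ∑ k, w k t = 1) ∧ ∀ k t, w k t ≠ 0 → |t - s k| < ζ := by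
  obtain ⟨κ, hκ⟩ := exists_nat_one_div_lt hζ
  set c : ℝ := (κ : ℝ) + 1 with hc
  have hc0 : 0 < c := by positivity
  refine ⟨κ + 1, fun k t => st (c * t - k + 1) - st (c * t - k), fun k => (k : ℝ) / c, ?_, ?_, ?_,
    ?_, ?_⟩
  · intro k
    have h1 : ((k : ℕ) : ℝ) ≤ c := by
      have h2 : (k : ℕ) ≤ κ + 1 := by omega
      have h3 : ((k : ℕ) : ℝ) ≤ ((κ + 1 : ℕ) : ℝ) := by exact_mod_cast h2
      rw [hc]
      push_cast at h3
      exact h3
    exact ⟨by positivity, by rwa [div_le_one hc0]⟩
  · intro k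
    have h1 : ContDiff ℝ ∞ st := Real.smoothTransition.contDiff
    exact (h1.comp (by fun_prop)).sub (h1.comp (by fun_prop))
  · intro k t
    have := Real.smoothTransition.monotone (show c * t - k ≤ c * t - k + 1 by linarith)
    exact sub_nonneg.2 this
  · intro t ht
    rw [Fin.sum_univ_eq_sum_range (fun k => st (c * t - k + 1) - st (c * t - k)) (κ + 1 + 1)]
    have h1 : ∀ j : ℕ, ∑ k ∈ Finset.range j, (st (c * t - k + 1) - st (c * t - k)) =
        st (c * t + 1) - st (c * t - j + 1) := by
      intro j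
      induction j with
      | zero => simp
      | succ j ih =>
        rw [Finset.sum_range_succ, ih]
        have : c * t - ((j + 1 : ℕ) : ℝ) + 1 = c * t - j := by
          push_cast
          ring
        rw [this]
        ring
    rw [h1]
    have h2 : 0 ≤ c * t := mul_nonneg hc0.le ht.1
    have h3 : c * t ≤ c := by nlinarith [ht.2]
    have h4 : st (c * t + 1) = 1 := Real.smoothTransition.one_of_one_le (by linarith)
    have h5 : st (c * t - ((κ + 1 + 1 : ℕ) : ℝ) + 1) = 0 := by
      apply Real.smoothTransition.zero_of_nonpos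
      push_cast
      rw [hc] at h3
      linarith
    rw [h4, h5, sub_zero]
  · intro k t hw
    have h1 : -1 < c * t - k := by
      by_contra h
      push Not at h
      apply hw
      simp only
      have e1 : st (c * t - k + 1) = 0 := Real.smoothTransition.zero_of_nonpos (by linarith)
      have e2 : st (c * t - k) = 0 := Real.smoothTransition.zero_of_nonpos (by linarith)
      rw [e1, e2, sub_zero]
    have h2 : c * t - k < 1 := by
      by_contra h
      push Not at h
      apply hw
      simp only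
      have e1 : st (c * t - k + 1) = 1 := Real.smoothTransition.one_of_one_le (by linarith)
      have e2 : st (c * t - k) = 1 := Real.smoothTransition.one_of_one_le (by linarith)
      rw [e1, e2, sub_self]
    have h3 : t - (k : ℝ) / c = (c * t - k) / c := by field_simp
    rw [h3, abs_div, abs_of_pos hc0]
    have h4 : |c * t - (k : ℝ)| < 1 := abs_lt.2 ⟨h1, h2⟩
    refine lt_trans ?_ hκ
    gcongr

theorem weights (ζ : ℝ) (hζ : 0 < ζ) : ∃ (C : Type) (_ : Fintype C) (_ : DecidableEq C)
    (W : C → ℝ → ℝ) (σ : C → ℝ) (τ : ℝ → ℝ) (c₀ c₁ : C), c₀ ≠ c₁ ∧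
      (∀ c, ContDiff ℝ ∞ (W c)) ∧ (∀ c t, 0 ≤ W c t) ∧ (∀ t, ∑ c, W c t = 1) ∧
      (∀ t, τ t ∈ Icc (0 : ℝ) 1) ∧ (∀ c, σ c ∈ Icc (0 : ℝ) 1) ∧
      (∀ c t, W c t ≠ 0 → |τ t - σ c| < ζ) ∧ (∀ t, W c₀ t ≠ 0 → τ t = 0) ∧
      (∀ t, W c₁ t ≠ 0 → τ t = 1) ∧ W c₀ 0 = 1 ∧ W c₁ 1 = 1 := by
  obtain ⟨κ, w, s, hs, hw, hw0, hw1, hwζ⟩ := pou ζ hζ
  have hst : ContDiff ℝ ∞ st := Real.smoothTransition.contDiff
  have hτ : ∀ t : ℝ, st (3 * t - 1) ∈ Icc (0 : ℝ) 1 := fun t =>
    ⟨Real.smoothTransition.nonneg _, Real.smoothTransition.le_one _⟩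
  have a0 : ∀ t : ℝ, 1 - st (3 * t) ≠ 0 → st (3 * t - 1) = 0 := by
    intro t ht
    apply Real.smoothTransition.zero_of_nonpos
    by_contra h
    push Not at h
    apply ht
    have : st (3 * t) = 1 := Real.smoothTransition.one_of_one_le (by linarith)
    rw [this, sub_self]
  have a1 : ∀ t : ℝ, st (3 * t - 2) ≠ 0 → st (3 * t - 1) = 1 := by
    intro t ht
    apply Real.smoothTransition.one_of_one_le
    by_contra h
    push Not at h
    exact ht (Real.smoothTransition.zero_of_nonpos (by linarith))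
  refine ⟨Bool ⊕ Fin (κ + 1), inferInstance, inferInstance,
    Sum.elim (fun b t => if b then st (3 * t - 2) else 1 - st (3 * t))
      (fun k t => (st (3 * t) - st (3 * t - 2)) * w k (st (3 * t - 1))),
    Sum.elim (fun b => if b then 1 else 0) s, fun t => st (3 * t - 1), Sum.inl false, Sum.inl true,
    by simp, ?_, ?_, ?_, hτ, ?_, ?_, ?_, ?_, ?_, ?_⟩
  · rintro ((_ | _) | k)
    · simp only [Sum.elim_inl, Bool.false_eq_true, if_false]
      exact contDiff_const.sub (hst.comp (by fun_prop))
    · simp only [Sum.elim_inl, if_true]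
      exact hst.comp (by fun_prop)
    · simp only [Sum.elim_inr]
      exact ((hst.comp (by fun_prop)).sub (hst.comp (by fun_prop))).mul
        ((hw k).comp (hst.comp (by fun_prop)))
  · rintro ((_ | _) | k) t
    · simp only [Sum.elim_inl, Bool.false_eq_true, if_false]
      exact sub_nonneg.2 (Real.smoothTransition.le_one _)
    · simp only [Sum.elim_inl, if_true]
      exact Real.smoothTransition.nonneg _
    · simp only [Sum.elim_inr]
      refine mul_nonneg (sub_nonneg.2 ?_) (hw0 _ _)
      exact Real.smoothTransition.monotone (by linarith)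
  · intro t
    rw [Fintype.sum_sum_type]
    simp only [Sum.elim_inl, Sum.elim_inr, Fintype.sum_bool, Bool.false_eq_true, if_false, if_true]
    rw [← Finset.mul_sum, hw1 _ (hτ t)]
    ring
  · rintro ((_ | _) | k)
    · simp
    · simp
    · exact hs k
  · rintro ((_ | _) | k) t ht
    · simp only [Sum.elim_inl, Bool.false_eq_true, if_false] at ht ⊢
      rw [a0 t ht]
      simpa using hζ
    · simp only [Sum.elim_inl, if_true] at ht ⊢
      rw [a1 t ht]
      simpa using hζ
    · simp only [Sum.elim_inr] at ht ⊢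
      exact hwζ k _ (right_ne_zero_of_mul ht)
  · intro t ht
    simp only [Sum.elim_inl, Bool.false_eq_true, if_false] at ht
    exact a0 t ht
  · intro t ht
    simp only [Sum.elim_inl, if_true] at ht
    exact a1 t ht
  · simp only [Sum.elim_inl, Bool.false_eq_true, if_false]
    have : st (3 * 0) = 0 := Real.smoothTransition.zero_of_nonpos (by norm_num)
    rw [this, sub_zero]
  · simp only [Sum.elim_inl, if_true]
    exact Real.smoothTransition.one_of_one_le (by norm_num)

end Pool.Agent.X169.NI
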